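import Pool.Agent.Helper51K9.LI.Main

/-!
# The part of low weights of the local factors: abstract main theorem
-/

set_option autoImplicit false
set_option linter.unusedSectionVars false
set_option linter.unusedVariables false

namespace Pool.Agent.Helper51K9.LI

open Polynomial

section

variable {G : Type} [Group G] {S : Set G} {Λ : Type} {L : Λ → Type} [∀ l, Field (L l)]
    [∀ l, CharZero (L l)]
    {V : Λ → Type} [∀ l, AddCommGroup (V l)] [∀ l, Module (L l) (V l)]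
    [∀ l, FiniteDimensional (L l) (V l)]
    {ρ : ∀ l, G →* Module.End (L l) (V l)} {W : ∀ l, Submodule (L l) (V l)}
    {U : Fin 2 → Λ → Type} [∀ w l, AddCommGroup (U w l)] [∀ w l, Module (L l) (U w l)]
    [∀ w l, FiniteDimensional (L l) (U w l)]
    {act : ∀ w l, G → Module.End (L l) (U w l)}
    {j : ∀ l, U 0 l →ₗ[L l] V l} {p : ∀ l, W l →ₗ[L l] U 1 l}
    {D : Fin 2 → Type} [∀ w, Ring (D w)] [∀ w, Algebra ℚ (D w)]
    {E : Fin 2 → Λ → Type} [∀ w l, AddCommGroup (E w l)] [∀ w l, Module (L l) (E w l)]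
    [∀ w l, FiniteDimensional (L l) (E w l)]
    {T : ∀ w l, D w →+* Module.End (L l) (E w l)} {e a b : ∀ w, D w} {c : ∀ w, G → D w}
    {α : ∀ w l, U w l →ₗ[L l] E w l} {β : ∀ w l, E w l →ₗ[L l] U w l}

theorem exists_lift (H : IsFiltered S L V (fun l g => ρ l g) W U act j p) (l : Λ) {g : G}
    (hg : g ∈ S) (x : W l) : p l ⟨ρ l g x, H.stable l g hg x x.2⟩ = act 1 l g (p l x) :=
  H.equivariant_p l g hg x _ rfl

theorem act_mul (H : IsFiltered S L V (fun l g => ρ l g) W U act j p)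
    (hmul : ∀ g ∈ S, ∀ h ∈ S, g * h ∈ S) (w : Fin 2) (l : Λ) :
    ∀ g ∈ S, ∀ h ∈ S, act w l (g * h) = act w l g * act w l h := by
  intro g hg h hh
  fin_cases w
  · change act 0 l (g * h) = act 0 l g * act 0 l h
    ext1 u
    apply H.injective l
    have e1 := H.equivariant_j l _ (hmul g hg h hh) u
    have e2 := H.equivariant_j l g hg (act 0 l h u)
    have e3 := H.equivariant_j l h hh u
    rw [Module.End.mul_apply, ← e1, ← e2, ← e3]
    change ρ l (g * h) _ = ρ l g (ρ l h _)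
    rw [map_mul, Module.End.mul_apply]
  · change act 1 l (g * h) = act 1 l g * act 1 l h
    ext1 u
    obtain ⟨x, rfl⟩ := H.surjective l u
    rw [← exists_lift H l (hmul g hg h hh), Module.End.mul_apply, ← exists_lift H l hh,
      ← exists_lift H l hg]
    congr 1
    apply Subtype.ext
    change ρ l (g * h) _ = ρ l g (ρ l h _)
    rw [map_mul, Module.End.mul_apply]

theorem act_triv (H : IsFiltered S L V (fun l g => ρ l g) W U act j p) {I' : Subgroup G}
    (hI'S : ∀ g ∈ I', g ∈ S) (htriv : ∀ l, ∀ g ∈ I', ∀ x ∈ W l, ρ l g x = x) (w : Fin 2) (l : Λ) :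
    ∀ g ∈ I', act w l g = 1 := by
  intro g hg
  fin_cases w
  · change act 0 l g = 1
    ext1 u
    apply H.injective l
    have e1 := H.equivariant_j l g (hI'S g hg) u
    rw [← e1]
    exact htriv l g hg _ (H.range_le l u)
  · change act 1 l g = 1
    ext1 u
    obtain ⟨x, rfl⟩ := H.surjective l u
    rw [← exists_lift H l (hI'S g hg)]
    rw [Module.End.one_apply]
    congr 1
    apply Subtype.ext
    exact htriv l g hg x x.2

theorem main (H : IsFiltered S L V (fun l g => ρ l g) W U act j p)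
    (HC : ∀ w, IsComplex S L (U w) (act w) (E w) (T w) (e w) (a w) (b w) (c w) (α w) (β w))
    {I : Subgroup G} {F : G} (hIS : ∀ g ∈ I, g ∈ S) (hFS : F ∈ S)
    (hmul : ∀ g ∈ S, ∀ h ∈ S, g * h ∈ S) (hn : ∀ g ∈ I, F⁻¹ * g * F ∈ I) (I' : Subgroup G)
    (hI' : I' ≤ I) (hfin : I'.relIndex I ≠ 0)
    (htriv : ∀ l, ∀ g ∈ I', ∀ x ∈ W l, ρ l g x = x) (q : ℕ) (w₀ : ℤ)
    (hlow : ∀ (w : Fin 2) (l : Λ), ∃ R : ℚ[X], Weights q {w₀ + ((w : ℕ) : ℤ)} R ∧
      aeval (act w l F) (R.map (algebraMap ℚ (L l))) = 0)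
    (hhigh : ∀ l, ∃ R : ℚ[X], Weights q (Set.Ici (w₀ + 2)) R ∧
      ∀ x, aeval (ρ l F) (R.map (algebraMap ℚ (L l))) x ∈ W l) :
    (∀ w, ∀ g ∈ S, ∃ χ : ℚ[X],
      ∀ l, (act w l g).charpoly.reverse = χ.map (algebraMap ℚ (L l))) ∧
    ∃ P : Fin 2 → ℚ[X], (∀ w, (P w).coeff 0 = 1 ∧
        (∀ z : ℂ, aeval z (P w) = 0 → ‖z⁻¹‖ ^ 2 = (q : ℝ) ^ (w₀ + ((w : ℕ) : ℤ))) ∧
        ∀ l, IsLocalFactor (act w l) (I : Set G) F ((P w).map (algebraMap ℚ (L l)))) ∧
      ∀ l, ∃ R : (L l)[X], (∀ (i : L l →+* ℂ) (z : ℂ), R.eval₂ i z = 0 →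
          ∃ k : ℤ, w₀ + 2 ≤ k ∧ ‖z⁻¹‖ ^ 2 = (q : ℝ) ^ k) ∧
        ∀ f, IsLocalFactor (fun g => ρ l g) (I : Set G) F f ↔
          f = (P 0 * P 1).map (algebraMap ℚ (L l)) * R := by
  classical
  have hex : S_EX := Pool.Agent.Helper86K9.LI.ex_
  have hnil : S_NIL := Pool.Agent.Helper86K9.LI.nil_ hex
  have hroot : S_ROOT := Pool.Agent.Helper86K9.LI.root_
  obtain ⟨N, s, hN, hs, havg⟩ := Pool.Agent.Helper86K9.LI.avg_ G I I' hI' hfin
  refine ⟨fun w g hg => ?_, ?_⟩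
  · obtain ⟨χ, -, -, hχ⟩ := Real.rational hex hnil (HC w) (Real.mk' (HC w) hg)
    exact ⟨χ, hχ⟩
  -- the averaged Frobenius
  have hreal : ∀ w, Real (T w) (e w) (a w) (b w) (α w) (β w)
      (c w F * (algebraMap ℚ (D w) ((N : ℚ)⁻¹) * ∑ k, c w (s k)))
      (fun l => act w l F * ((N : L l)⁻¹ • ∑ k, act w l (s k))) := fun w =>
    Real.mul (HC w) (Real.mk' (HC w) hFS)
      (Real.smul (Real.sum Finset.univ fun k _ => Real.mk' (HC w) (hIS _ (hs k))) N hN)
  choose P hP0 hPn hP using fun w => Real.rational hex hnil (HC w) (hreal w)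
  have hst : ∀ w l, ∀ x ∈ inv (act w l) (I : Set G), act w l F x ∈ inv (act w l) (I : Set G) :=
    fun w l => stab_inv hIS hFS hn (act w l) (act_mul H hmul w l)
  have hav : ∀ w l, _ := fun w l => havg (L l) (U w l) (act w l)
    (fun g hg h hh => act_mul H hmul w l g (hIS g hg) h (hIS h hh))
    (act_triv H (fun g hg => hIS g (hI' hg)) htriv w l)
  let φ : ∀ w l, Module.End (L l) (inv (act w l) (I : Set G)) := fun w l =>
    (act w l F).restrict (hst w l)
  have hφ : ∀ w l x, (φ w l x : U w l) = act w l F x := fun _ _ _ => rfl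
  have hφP : ∀ w l, (φ w l).charpoly.reverse = (P w).map (algebraMap ℚ (L l)) := by
    intro w l
    rw [← hP w l, avg_factor hnil hIS hFS hn (act w l) (act_mul H hmul w l)
      ((N : L l)⁻¹ • ∑ k, act w l (s k)) (fun v h hh => (hav w l).1 v h hh) (hav w l).2 (φ w l)
      (hφ w l)]
  refine ⟨P, fun w => ⟨hP0 w, fun z hz => ?_, fun l => ?_⟩, fun l => ?_⟩
  · rcases hPn w with ⟨⟨l⟩⟩ | h1
    · obtain ⟨R, hR, hR0⟩ := hlow w l
      have hk : aeval (φ w l) (R.map (algebraMap ℚ (L l))) = 0 := by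
        ext1 x
        apply Subtype.ext
        have e1 := aeval_intertwine (inv (act w l) (I : Set G)).subtype (φ w l) (act w l F)
          (fun _ => rfl) (R.map (algebraMap ℚ (L l))) x
        change (inv (act w l) (I : Set G)).subtype _ = _
        rw [e1, hR0]
        rfl
      obtain ⟨-, h3⟩ := root_rational hroot (φ w l) (P w) R (hφP w l) hk (hP0 w) z hz
      obtain ⟨k, hk1, hk2⟩ := hR _ h3
      rw [Set.mem_singleton_iff] at hk1
      rw [hk2, hk1]
    · rw [h1, map_one] at hz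
      exact absurd hz one_ne_zero
  · rw [localFactor_iff (φ w l) (hφ w l), hφP]
  · obtain ⟨Q, hQ, hQ0⟩ := hhigh l
    obtain ⟨ψ, hψ⟩ := exists_restrict (ρ := fun g => ρ l g) (F := F)
      (stab_inv hIS hFS hn (fun g => ρ l g) (fun g _ h _ => map_mul _ _ _))
    obtain ⟨R, hR1, hR2⟩ := exact_factor hex hroot H hIS hFS hmul hn I' hI' hfin htriv N s hs havg l
      Q hQ0 ψ hψ (φ 0 l) (hφ 0 l) (φ 1 l) (hφ 1 l)
    refine ⟨R, fun i z hz => ?_, fun f => ?_⟩
    · obtain ⟨-, h3⟩ := hR2 i z hz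
      obtain ⟨k, hk1, hk2⟩ := hQ _ h3
      exact ⟨k, hk1, hk2⟩
    · rw [localFactor_iff ψ hψ, hR1, hφP, hφP, Polynomial.map_mul]

end

end Pool.Agent.Helper51K9.LI
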