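import Pool.Agent.Helper51K9.LI.Defs
import Pool.Agent.Helper51K9.LI.Fin

/-!
# From matrices to linear maps
-/

set_option autoImplicit false
set_option linter.unusedSectionVars false
set_option linter.unusedVariables false

namespace Pool.Agent.Helper51K9.LI.M

open Polynomial Matrix

section

variable {L : Type} [Field L] {G : Type}

theorem col_mul {n m : ℕ} (B : Mat L n m) (A : Mat L m m) (k : Fin m) :
    (B * A).col k = ∑ i, A i k • B.col i := by
  ext x
  rw [Matrix.col_apply, Matrix.mul_apply, Finset.sum_apply]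
  refine Finset.sum_congr rfl fun i _ => ?_
  rw [Pi.smul_apply, Matrix.col_apply, smul_eq_mul, mul_comm]

theorem mulVec_col {n m : ℕ} (R : Mat L n n) (B : Mat L n m) (k : Fin m) :
    R *ᵥ B.col k = (R * B).col k := by
  ext x
  rw [Matrix.col_apply, Matrix.mul_apply]
  rfl

theorem inj_iff {n m : ℕ} (B : Mat L n m) : Inj B ↔ LinearIndependent L B.col := by
  rw [← Matrix.mulVec_injective_iff]
  constructor
  · intro h x y hxy
    have : B *ᵥ (x - y) = 0 := by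
      rw [Matrix.mulVec_sub, sub_eq_zero]
      exact hxy
    exact sub_eq_zero.1 (h _ this)
  · intro h x hx
    exact h (by simpa using hx)

theorem lf_iff {n : ℕ} (ρ : G → Mat L n n) (I : Set G) (F : G) (f : L[X]) :
    IsLocalFactor ρ I F f ↔
      LI.IsLocalFactor (fun g => Matrix.toLinAlgEquiv' (ρ g)) I F f := by
  have hs : ∀ {m : ℕ} (B : Mat L n m) (y : Fin n → L),
      y ∈ Submodule.span L (Set.range B.col) ↔ ∃ x, B *ᵥ x = y := by
    intro m B y
    rw [← Matrix.range_mulVecLin]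
    exact LinearMap.mem_range
  constructor
  · rintro ⟨m, B, A, hB, hI, hA, rfl⟩
    refine ⟨m, B.col, A, (inj_iff B).1 hB, fun x => ?_, fun k => ?_, rfl⟩
    · rw [hs, hI]
      rfl
    · rw [← col_mul, ← hA, ← mulVec_col]
      rfl
  · rintro ⟨m, v, A, hv, hI, hA, rfl⟩
    let B : Mat L n m := Matrix.of fun i k => v k i
    have hBv : B.col = v := rfl
    refine ⟨m, B, A, (inj_iff B).2 (by rw [hBv]; exact hv), fun x => ?_, ?_, rfl⟩
    · rw [← hs, hBv, hI]
      rfl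
    · have h1 : ∀ k, (ρ F * B).col k = (B * A).col k := by
        intro k
        rw [col_mul, ← mulVec_col, hBv]
        exact hA k
      ext x k
      exact congrFun (h1 k) x

theorem det_rev {n : ℕ} (A : Mat L n n) :
    (1 - (X : L[X]) • A.map C).det = (Matrix.toLinAlgEquiv' A : (Fin n → L) →ₗ[L] _).charpoly.reverse := by
  have h1 : (Matrix.toLinAlgEquiv' A : (Fin n → L) →ₗ[L] _) = A.toLin' := rfl
  rw [h1, Matrix.charpoly_toLin', Matrix.reverse_charpoly]
  rfl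

end

section

variable {G : Type} [Group G] {S : Set G} {Λ : Type} {L : Λ → Type} [∀ l, Field (L l)]
    [∀ l, CharZero (L l)] {n r : Λ → ℕ} {k : Fin 2 → Λ → ℕ}
    {ρ : ∀ l, G → Mat (L l) (n l) (n l)} {σ : ∀ l, G → Mat (L l) (r l) (r l)}
    {act : ∀ w l, G → Mat (L l) (k w l) (k w l)} {i : ∀ l, Mat (L l) (n l) (r l)}
    {j : ∀ l, Mat (L l) (r l) (k 0 l)} {p : ∀ l, Mat (L l) (k 1 l) (r l)}
    {D : Fin 2 → Type} [∀ w, Ring (D w)] [∀ w, Algebra ℚ (D w)] {e a b : ∀ w, D w}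
    {c : ∀ w, G → D w} {m : Fin 2 → Λ → ℕ} {T : ∀ w l, D w → Mat (L l) (m w l) (m w l)}
    {α : ∀ w l, Mat (L l) (m w l) (k w l)} {β : ∀ w l, Mat (L l) (k w l) (m w l)}

/-- the representation on `V l` -/
noncomputable def rep {L : Type} [Field L] {n : ℕ} (ρ : G → Mat L n n) (h : IsRep ρ) :
    G →* Module.End L (Fin n → L) where
  toFun := fun g => Matrix.toLinAlgEquiv' (ρ g)
  map_one' := by rw [h.1, map_one]
  map_mul' := fun g g' => by rw [h.2, map_mul]

theorem injF {L : Type} [Field L] {n m : ℕ} {B : Mat L n m} (h : Inj B) :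
    Function.Injective B.mulVecLin := by
  intro x y hxy
  have : B *ᵥ (x - y) = 0 := by
    rw [Matrix.mulVec_sub, sub_eq_zero]
    exact hxy
  exact sub_eq_zero.1 (h _ this)

theorem bridge (hρ : ∀ l, IsRep (ρ l))
    (hW : ∀ l, IsFiltered S (ρ l) (σ l) (act 0 l) (act 1 l) (i l) (j l) (p l))
    {I : Subgroup G} (hI : PotentiallyTrivial (I : Set G) σ)
    (hD : ∀ w, IsComplex S (e w) (a w) (b w) (c w)) (hT : ∀ w, Rational (T w))
    (hE : ∀ w l, Computes S (e w) (a w) (b w) (c w) (T w l) (act w l) (α w l) (β w l))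
    {Fr : Set G} {q : ℕ} {w₀ : ℤ} (hF : HasLowWeights Fr q w₀ ρ act i)
    (hIS : ∀ g ∈ I, g ∈ S) (hmul : ∀ g ∈ S, ∀ h ∈ S, g * h ∈ S) (hFr : ∀ F ∈ Fr, F ∈ S)
    (hn : ∀ F ∈ Fr, ∀ g ∈ I, F⁻¹ * g * F ∈ I) :
    LowFactors S (I : Set G) Fr q w₀ ρ act := by
  classical
  let W : ∀ l, Submodule (L l) (Fin (n l) → L l) := fun l => LinearMap.range (i l).mulVecLin
  let eW : ∀ l, (Fin (r l) → L l) ≃ₗ[L l] W l := fun l =>
    LinearEquiv.ofInjective _ (injF (hW l).inj_i)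
  have heW : ∀ l x, (eW l x : Fin (n l) → L l) = i l *ᵥ x := fun l x => rfl
  let j' : ∀ l, (Fin (k 0 l) → L l) →ₗ[L l] (Fin (n l) → L l) := fun l =>
    (i l).mulVecLin.comp (j l).mulVecLin
  let p' : ∀ l, W l →ₗ[L l] (Fin (k 1 l) → L l) := fun l =>
    (p l).mulVecLin.comp (eW l).symm.toLinearMap
  have hp' : ∀ l x, p' l (eW l x) = p l *ᵥ x := fun l x => by
    change (p l).mulVecLin ((eW l).symm (eW l x)) = _
    rw [LinearEquiv.symm_apply_apply]
    rfl
  let ρ' : ∀ l, G →* Module.End (L l) (Fin (n l) → L l) := fun l => rep (ρ l) (hρ l)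
  have hρ' : ∀ l g x, ρ' l g x = ρ l g *ᵥ x := fun l g x => rfl
  let act' : ∀ (w : Fin 2) l, G → Module.End (L l) (Fin (k w l) → L l) := fun w l g =>
    Matrix.toLinAlgEquiv' (act w l g)
  have ei : ∀ l, ∀ g ∈ S, ∀ x, ρ l g *ᵥ (i l *ᵥ x) = i l *ᵥ (σ l g *ᵥ x) := by
    intro l g hg x
    rw [Matrix.mulVec_mulVec, Matrix.mulVec_mulVec, ((hW l).equivariant g hg).1]
  have ej : ∀ l, ∀ g ∈ S, ∀ x, σ l g *ᵥ (j l *ᵥ x) = j l *ᵥ (act 0 l g *ᵥ x) := by
    intro l g hg x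
    rw [Matrix.mulVec_mulVec, Matrix.mulVec_mulVec, ((hW l).equivariant g hg).2.1]
  have ep : ∀ l, ∀ g ∈ S, ∀ x, p l *ᵥ (σ l g *ᵥ x) = act 1 l g *ᵥ (p l *ᵥ x) := by
    intro l g hg x
    rw [Matrix.mulVec_mulVec, Matrix.mulVec_mulVec, ((hW l).equivariant g hg).2.2]
  have H : LI.IsFiltered S L (fun l => Fin (n l) → L l) (fun l g => ρ' l g) W
      (fun w l => Fin (k w l) → L l) act' j' p' := by
    refine ⟨?_, ?_, ?_, ?_, ?_, ?_, ?_⟩
    · rintro l g hg _ ⟨x, rfl⟩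
      exact ⟨σ l g *ᵥ x, (ei l g hg x).symm⟩
    · intro l
      exact (injF (hW l).inj_i).comp (injF (hW l).inj_j)
    · intro l u
      exact ⟨j l *ᵥ u, rfl⟩
    · intro l x
      obtain ⟨y, rfl⟩ := (eW l).surjective x
      rw [hp', (hW l).exact]
      constructor
      · rintro ⟨u, hu⟩
        refine ⟨u, ?_⟩
        change i l *ᵥ (j l *ᵥ u) = _
        rw [hu, heW]
      · rintro ⟨u, hu⟩
        refine ⟨u, injF (hW l).inj_i ?_⟩
        exact hu
    · intro l u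
      obtain ⟨x, hx⟩ := (hW l).surj_p u
      exact ⟨eW l x, by rw [hp', hx]⟩
    · intro l g hg u
      change ρ l g *ᵥ (i l *ᵥ (j l *ᵥ u)) = i l *ᵥ (j l *ᵥ (act 0 l g *ᵥ u))
      rw [ei l g hg, ej l g hg]
    · intro l g hg x y hxy
      obtain ⟨x, rfl⟩ := (eW l).surjective x
      obtain ⟨y, rfl⟩ := (eW l).surjective y
      rw [hp', hp']
      change p l *ᵥ y = act 1 l g *ᵥ (p l *ᵥ x)
      rw [← ep l g hg]
      congr 1
      apply injF (hW l).inj_i
      change i l *ᵥ y = i l *ᵥ (σ l g *ᵥ x)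
      rw [← ei l g hg]
      exact hxy
  choose T' hT' using fun w l => (hE w l).hom
  let TT : ∀ (w : Fin 2) l, D w →+* Module.End (L l) (Fin (m w l) → L l) := fun w l =>
    ((Matrix.toLinAlgEquiv' : Mat (L l) (m w l) (m w l) ≃ₐ[L l] _) : _ →+* _).comp (T' w l)
  have hTT : ∀ w l x y, TT w l x y = T w l x *ᵥ y := by
    intro w l x y
    rw [← hT']
    rfl
  have HC : ∀ w, LI.IsComplex S L (fun l => Fin (k w l) → L l) (act' w)
      (fun l => Fin (m w l) → L l) (TT w) (e w) (a w) (b w) (c w)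
      (fun l => (α w l).mulVecLin) (fun l => (β w l).mulVecLin) := by
    intro w
    refine ⟨(hD w).semisimple, fun x => ?_, (hD w).terms, fun l u => ?_, fun l y => ?_,
      fun l u => ?_, (hD w).commute, fun g hg l x h1 h2 => ?_⟩
    · obtain ⟨χ, hχ⟩ := hT w x
      refine ⟨χ, fun l => ?_⟩
      rw [← hχ l, ← hT']
      exact Matrix.charpoly_toLin' _
    · rw [hTT, hTT]
      change T w l (e w) *ᵥ (α w l *ᵥ u) = α w l *ᵥ u ∧ T w l (b w) *ᵥ (α w l *ᵥ u) = 0
      rw [Matrix.mulVec_mulVec, Matrix.mulVec_mulVec, (hE w l).cocycle.1, (hE w l).cocycle.2,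
        Matrix.zero_mulVec]
      exact ⟨rfl, rfl⟩
    · rw [hTT]
      change β w l *ᵥ (T w l (a w) *ᵥ y) = 0
      rw [Matrix.mulVec_mulVec, (hE w l).coboundary, Matrix.zero_mulVec]
    · change β w l *ᵥ (α w l *ᵥ u) = u
      rw [Matrix.mulVec_mulVec, (hE w l).section_, Matrix.one_mulVec]
    · rw [hTT] at h1 h2
      obtain ⟨y, hy⟩ := (hE w l).induce g hg x h1 h2
      refine ⟨y, ?_⟩
      rw [hTT, hTT]
      exact hy
  obtain ⟨J, hJ, hJt⟩ := hI
  have key := fun (F : G) (hFF : F ∈ Fr) =>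
    main H HC (I := I) (F := F) hIS (hFr F hFF) hmul (hn F hFF) (I ⊓ J) inf_le_left
      (by
        rw [inf_comm, Subgroup.inf_relIndex_right]
        exact (inferInstance : (J.subgroupOf I).FiniteIndex).index_ne_zero)
      (by
        rintro l g ⟨hg1, hg2⟩ _ ⟨x, rfl⟩
        rw [hρ']
        change ρ l g *ᵥ (i l *ᵥ x) = i l *ᵥ x
        rw [ei l g (hIS g hg1), hJt g hg2 hg1 l, Matrix.one_mulVec]) q w₀
      (by
        intro w l
        obtain ⟨R, hR, hR0⟩ := (hF F hFF).1 w l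
        refine ⟨R, hR, ?_⟩
        change aeval (Matrix.toLinAlgEquiv' (act w l F)) _ = _
        rw [Polynomial.aeval_algHom_apply, hR0, map_zero])
      (by
        intro l
        obtain ⟨R, hR, hR0⟩ := (hF F hFF).2 l
        refine ⟨R, hR, fun x => ?_⟩
        obtain ⟨y, hy⟩ := hR0 x
        refine ⟨y, ?_⟩
        change i l *ᵥ y = aeval (Matrix.toLinAlgEquiv' (ρ l F)) _ x
        rw [Polynomial.aeval_algHom_apply, ← hy]
        rfl)
  refine ⟨fun w g hg => ?_, fun F hFF => ?_⟩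
  · obtain ⟨χ, -, -, hχ⟩ := Real.rational Pool.Agent.Helper86K9.LI.ex_
      (Pool.Agent.Helper86K9.LI.nil_ Pool.Agent.Helper86K9.LI.ex_) (HC w) (Real.mk' (HC w) hg)
    refine ⟨χ, fun l => ?_⟩
    rw [← hχ l, det_rev]
  · obtain ⟨P, hP, hR⟩ := (key F hFF).2
    refine ⟨P, fun w => ⟨⟨(hP w).1, (hP w).2.1⟩, fun l => ?_⟩, fun l => ?_⟩
    · rw [lf_iff]
      exact (hP w).2.2 l
    · obtain ⟨R, hR1, hR2⟩ := hR l
      refine ⟨R, hR1, fun f => ?_⟩
      rw [lf_iff]
      exact hR2 f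

end

end Pool.Agent.Helper51K9.LI.M
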