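import Pool.Agent.Helper51K9.LI.Lw

/-!
# [BT] block triangular matrices
-/

set_option autoImplicit false

namespace Pool.Agent.Helper51K9.LI

open Polynomial

theorem bt : S_BT := by
  intro L _ s n k R A B B' h1 h2 hT hA
  classical
  have hconj : (B' * R * B).charpoly = R.charpoly := by
    unfold Matrix.charpoly
    have hm : ∀ (a b c : Type) [Fintype b] (P : Matrix a b L) (Q : Matrix b c L),
        (P * Q).map (C : L →+* L[X]) = P.map (C : L →+* L[X]) * Q.map (C : L →+* L[X]) :=
      fun a b c _ P Q => Matrix.map_mul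
    have e1 : B'.map (C : L →+* L[X]) * B.map (C : L →+* L[X]) = 1 := by
      rw [← hm, h2]; simp
    have e2 : B.map (C : L →+* L[X]) * B'.map (C : L →+* L[X]) = 1 := by
      rw [← hm, h1]; simp
    have e3 : (B' * R * B).charmatrix =
        B'.map (C : L →+* L[X]) * R.charmatrix * B.map (C : L →+* L[X]) := by
      unfold Matrix.charmatrix
      rw [Matrix.mul_sub, Matrix.sub_mul]
      congr 1
      · rw [Matrix.scalar_apply, Matrix.scalar_apply, ← Matrix.smul_one_eq_diagonal,
          ← Matrix.smul_one_eq_diagonal, Matrix.mul_smul, Matrix.smul_mul, Matrix.mul_one, e1]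
      · exact (hm _ _ _ _ _).trans (by rw [hm]; rfl)
    rw [e3, Matrix.det_conj_of_mul_eq_one e1 e2]
  rw [← hconj]
  rw [Matrix.charpoly, Matrix.BlockTriangular.det_fintype (b := Sigma.fst) (by
    intro i j hij
    have := hT hij
    rw [Matrix.charmatrix_apply_ne _ _ _ (fun h => by subst h; exact lt_irrefl _ hij), this]
    simp)]
  refine Finset.prod_congr rfl fun w _ => ?_
  rw [← hA w, Matrix.charpoly]
  rw [← Matrix.det_reindex_self (Equiv.sigmaSubtype w)]
  congr 1
  refine Matrix.ext fun i j => ?_
  by_cases hij : i = j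
  · subst hij
    simp [Matrix.toSquareBlock, Matrix.toSquareBlockProp, Matrix.charmatrix_apply_eq]
    rfl
  · have hne : (⟨w, i⟩ : Σ w, Fin (k w)) ≠ ⟨w, j⟩ := fun h => hij (by simpa using h)
    rw [Matrix.charmatrix_apply_ne _ _ _ hij]
    exact Matrix.charmatrix_apply_ne (B' * R * B) _ _ hne

end Pool.Agent.Helper51K9.LI
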