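import Mathlib

/-!
# Definitions for `MP_a3c811_ag.LowWeightFactors` (in terms of matrices)
-/

set_option autoImplicit false

namespace Pool.Agent.Helper51K9.LI.M

open Polynomial Matrix

/-- the `a × b` matrices over `L`: the linear maps from `L ^ b` to `L ^ a` -/
abbrev Mat (L : Type) (a b : ℕ) : Type := Matrix (Fin a) (Fin b) L

section
variable {L : Type} [Field L] {G : Type}

/-- `A` is injective. -/
def Inj {a b : ℕ} (A : Mat L a b) : Prop := ∀ x, A *ᵥ x = 0 → x = 0

/-- `ρ` is a representation on `L ^ n`. -/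
def IsRep [Group G] {n : ℕ} (ρ : G → Mat L n n) : Prop := ρ 1 = 1 ∧ ∀ g h, ρ (g * h) = ρ g * ρ h

/-- `f` is `det (1 - F T | V ^ I)` for `V = L ^ n`: the columns of the matrix `B` form a basis of the space of the
vectors which are fixed by all the elements of `I`, and `f = det (1 - A T)` for the matrix `A` of `F` with respect to
this basis. -/
def IsLocalFactor {n : ℕ} (ρ : G → Mat L n n) (I : Set G) (F : G) (f : L[X]) : Prop :=
  ∃ (m : ℕ) (B : Mat L n m) (A : Mat L m m), Inj B ∧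
    (∀ y, (∃ x, B *ᵥ x = y) ↔ ∀ g ∈ I, ρ g *ᵥ y = y) ∧ ρ F * B = B * A ∧
    f = (1 - (X : L[X]) • A.map C).det

/-- `W = L ^ r` is a subrepresentation of `V = L ^ n` by means of `i`, and an extension of `U₁ = L ^ k₁` by
`U₀ = L ^ k₀` by means of `j : U₀ → W` and `p : W → U₁`; this for the elements of `S`. -/
structure IsFiltered (S : Set G) {n r k₀ k₁ : ℕ} (ρ : G → Mat L n n) (σ : G → Mat L r r)
    (act₀ : G → Mat L k₀ k₀) (act₁ : G → Mat L k₁ k₁) (i : Mat L n r) (j : Mat L r k₀)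
    (p : Mat L k₁ r) : Prop where
  inj_i : Inj i
  inj_j : Inj j
  exact : ∀ x, p *ᵥ x = 0 ↔ ∃ u, j *ᵥ u = x
  surj_p : ∀ u, ∃ x, p *ᵥ x = u
  equivariant : ∀ g ∈ S, ρ g * i = i * σ g ∧ σ g * j = j * act₀ g ∧ p * σ g = act₁ g * p

/-- `U = L ^ k` is, by means of `α` and `β`, a direct summand of the cohomology, in the middle term, of a complex whose
terms are direct summands of `E = L ^ m`, on which a ring `D` of correspondences acts by `T`. Here `e`, `a`, `b` are the
projector onto the middle term, the differential which ends in it and the differential which starts from it: the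
cocycles are the `x` with `e x = x` and `b x = 0`, the coboundaries are the `a y`. The elements `g` of `S`, composed
with `α` and `β`, act on the cohomology by the correspondence `c g`. -/
structure Computes {D : Type} [Ring D] (S : Set G) (e a b : D) (c : G → D) {m k : ℕ}
    (T : D → Mat L m m) (act : G → Mat L k k) (α : Mat L m k) (β : Mat L k m) : Prop where
  hom : ∃ T' : D →+* Mat L m m, ∀ x, T' x = T x
  cocycle : T e * α = α ∧ T b * α = 0
  coboundary : β * T a = 0
  section_ : β * α = 1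
  induce : ∀ g ∈ S, ∀ x, T e *ᵥ x = x → T b *ᵥ x = 0 →
    ∃ y, T (c g) *ᵥ x = α *ᵥ (act g *ᵥ (β *ᵥ x)) + T a *ᵥ y

end

/-- The relations of `e`, `a`, `b` and of the correspondences `c g`, in the semisimple ring `D`. -/
structure IsComplex {G D : Type} [Ring D] (S : Set G) (e a b : D) (c : G → D) : Prop where
  semisimple : IsSemisimpleRing D
  terms : e * e = e ∧ e * a = a ∧ b * e = b ∧ b * a = 0
  commute : ∀ g ∈ S, c g * e = e * c g ∧ c g * a = a * c g ∧ c g * b = b * c g

/-- Every complex root `z` of `Q` has a weight in `W`: `|z| ^ 2 = q ^ w` with `w ∈ W`. -/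
def Weights (q : ℕ) (W : Set ℤ) (Q : ℚ[X]) : Prop :=
  ∀ z : ℂ, aeval z Q = 0 → ∃ w ∈ W, ‖z‖ ^ 2 = (q : ℝ) ^ w

section
variable {Λ : Type} {L : Λ → Type} [∀ l, Field (L l)] [∀ l, CharZero (L l)]

/-- the elements of `D` have rational characteristic polynomials on `E l = (L l) ^ (m l)`, which do not depend on `l` -/
def Rational {D : Type} {m : Λ → ℕ} (T : ∀ l, D → Mat (L l) (m l) (m l)) : Prop :=
  ∀ x, ∃ χ : ℚ[X], ∀ l, (T l x).charpoly = χ.map (algebraMap ℚ (L l))

end

section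
variable {L : Type} [Field L] [CharZero L]

/-- A rational polynomial with weights in `W` kills `A`. -/
def HasWeights (q : ℕ) (W : Set ℤ) {k : ℕ} (A : Mat L k k) : Prop :=
  ∃ R : ℚ[X], Weights q W R ∧ aeval A (R.map (algebraMap ℚ L)) = 0

/-- A rational polynomial with weights in `W` maps `L ^ n` to the image of `i`. -/
def HasWeightsModulo (q : ℕ) (W : Set ℤ) {n r : ℕ} (A : Mat L n n) (i : Mat L n r) : Prop :=
  ∃ R : ℚ[X], Weights q W R ∧ ∀ x, ∃ y, aeval A (R.map (algebraMap ℚ L)) *ᵥ x = i *ᵥ y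

/-- `P = det (1 - T F)` with `F` pure of weight `w`: the inverses `u` of the roots of `P` satisfy `|u| ^ 2 = q ^ w` -/
def IsPure (q : ℕ) (w : ℤ) (P : ℚ[X]) : Prop :=
  P.coeff 0 = 1 ∧ ∀ z : ℂ, aeval z P = 0 → ‖z⁻¹‖ ^ 2 = (q : ℝ) ^ w

/-- the inverses `u` of the roots of `R`, for every embedding of `L` into the complex numbers, have weights `≥ w` -/
def WeightsAtLeast (q : ℕ) (w : ℤ) (R : L[X]) : Prop :=
  ∀ (i : L →+* ℂ) (z : ℂ), R.eval₂ i z = 0 → ∃ k : ℤ, w ≤ k ∧ ‖z⁻¹‖ ^ 2 = (q : ℝ) ^ k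

end

section
variable {G : Type} {Λ : Type} {L : Λ → Type} [∀ l, Field (L l)] [∀ l, CharZero (L l)] {n r : Λ → ℕ}
  {k : Fin 2 → Λ → ℕ}

/-- the elements of `I` which belong to a suitable subgroup of finite index of `G` act trivially on all `W l` -/
def PotentiallyTrivial [Group G] (I : Set G) (σ : ∀ l, G → Mat (L l) (r l) (r l)) : Prop :=
  ∃ H : Subgroup G, H.FiniteIndex ∧ ∀ g ∈ H, g ∈ I → ∀ l, σ l g = 1

/-- The elements `F` of `Fr` are pure of weight `w₀ + w` on `U w l = (L l) ^ (k w l)`, for `w = 0, 1`, and have weights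
`≥ w₀ + 2` on the quotient of `V l = (L l) ^ (n l)` by the image of `i l`. -/
def HasLowWeights (Fr : Set G) (q : ℕ) (w₀ : ℤ) (ρ : ∀ l, G → Mat (L l) (n l) (n l))
    (act : ∀ w l, G → Mat (L l) (k w l) (k w l)) (i : ∀ l, Mat (L l) (n l) (r l)) : Prop :=
  ∀ F ∈ Fr, (∀ (w : Fin 2) (l : Λ), HasWeights q {w₀ + (w : ℕ)} (act w l F)) ∧
    ∀ l, HasWeightsModulo q (Set.Ici (w₀ + 2)) (ρ l F) (i l)

/-- **The conclusion.** (1) For the elements `g` of `S`, `det (1 - T g)` on `U w l` is rational and independent of `l`.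
(2) For the elements `F` of `Fr`, there are rational polynomials `P 0`, `P 1`, independent of `l`, pure of weights `w₀`,
`w₀ + 1`, with: `P w = det (1 - T F)` on the invariants of `I` in `U w l`, and `det (1 - T F)` on the invariants
of `I` in `V l` is `P 0 * P 1 * R` where `R` has weights `≥ w₀ + 2`. -/
def LowFactors (S I Fr : Set G) (q : ℕ) (w₀ : ℤ) (ρ : ∀ l, G → Mat (L l) (n l) (n l))
    (act : ∀ w l, G → Mat (L l) (k w l) (k w l)) : Prop :=
  (∀ w, ∀ g ∈ S, ∃ χ : ℚ[X], ∀ l,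
    (1 - (X : (L l)[X]) • (act w l g).map C).det = χ.map (algebraMap ℚ (L l))) ∧
  ∀ F ∈ Fr, ∃ P : Fin 2 → ℚ[X],
    (∀ w : Fin 2, IsPure q (w₀ + (w : ℕ)) (P w) ∧
      ∀ l, IsLocalFactor (act w l) I F ((P w).map (algebraMap ℚ (L l)))) ∧
    ∀ l, ∃ R : (L l)[X], WeightsAtLeast q (w₀ + 2) R ∧ ∀ f,
      IsLocalFactor (ρ l) I F f ↔ f = (P 0 * P 1).map (algebraMap ℚ (L l)) * R

end

end Pool.Agent.Helper51K9.LI.M
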