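import Pool.Agent.Helper51K9.LI.Real

/-!
# Invariants, local factors, roots
-/

set_option autoImplicit false
set_option linter.unusedSectionVars false
set_option linter.unusedVariables false

namespace Pool.Agent.Helper51K9.LI

open Polynomial

section

variable {G L V : Type} [Field L] [AddCommGroup V] [Module L V]

/-- the invariants -/
def inv (ρ : G → Module.End L V) (I : Set G) : Submodule L V where
  carrier := {x | ∀ g ∈ I, ρ g x = x}
  add_mem' := by
    intro x y hx hy g hg
    rw [map_add, hx g hg, hy g hg]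
  zero_mem' := by
    intro g _
    rw [map_zero]
  smul_mem' := by
    intro t x hx g hg
    rw [map_smul, hx g hg]

theorem mem_inv {ρ : G → Module.End L V} {I : Set G} {x : V} :
    x ∈ inv ρ I ↔ ∀ g ∈ I, ρ g x = x := Iff.rfl

theorem localFactor_iff [FiniteDimensional L V] {ρ : G → Module.End L V} {I : Set G} {F : G}
    (φ : Module.End L (inv ρ I)) (hφ : ∀ x, (φ x : V) = ρ F x) (f : L[X]) :
    IsLocalFactor ρ I F f ↔ f = φ.charpoly.reverse := by
  classical
  constructor
  · rintro ⟨m, v, A, hv, hs, hA, rfl⟩
    have hS : Submodule.span L (Set.range v) = inv ρ I := Submodule.ext fun x => hs x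
    let bs : Module.Basis (Fin m) L (inv ρ I) :=
      (Module.Basis.span hv).map (LinearEquiv.ofEq _ _ hS)
    have hbs : ∀ i, ((bs i : inv ρ I) : V) = v i := by
      intro i
      change ((LinearEquiv.ofEq _ _ hS) (Module.Basis.span hv i) : V) = v i
      rw [LinearEquiv.coe_ofEq_apply]
      exact congrArg _ (Module.Basis.span_apply hv i)
    have hM : LinearMap.toMatrix bs bs φ = A := by
      have : φ = Matrix.toLin bs bs A := by
        refine bs.ext fun k => ?_
        rw [Matrix.toLin_self]
        apply Subtype.ext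
        rw [hφ, hbs, hA, Submodule.coe_sum]
        exact Finset.sum_congr rfl fun i _ => by rw [Submodule.coe_smul, hbs]
      rw [this, LinearMap.toMatrix_toLin]
    rw [← LinearMap.charpoly_toMatrix φ bs, hM, Matrix.reverse_charpoly]
    rfl
  · rintro rfl
    let bs := Module.finBasis L (inv ρ I)
    refine ⟨_, fun i => (bs i : V), LinearMap.toMatrix bs bs φ,
      bs.linearIndependent.map' (inv ρ I).subtype (inv ρ I).ker_subtype, fun x => ?_, fun k => ?_, ?_⟩
    · have h1 : Submodule.span L (Set.range fun i => (bs i : V)) = inv ρ I := by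
        have h2 : (Set.range fun i => (bs i : V)) = (inv ρ I).subtype '' Set.range bs := by
          rw [← Set.range_comp]
          rfl
        rw [h2, ← Submodule.map_span, bs.span_eq, Submodule.map_top, Submodule.range_subtype]
      rw [h1]
      exact mem_inv
    · rw [← hφ]
      have h1 := congrArg (fun t : Module.End L (inv ρ I) => t (bs k))
        (Matrix.toLin_toMatrix bs bs φ)
      have h2 : φ (bs k) = ∑ i, LinearMap.toMatrix bs bs φ i k • bs i := by
        conv_lhs => rw [← h1]
        exact Matrix.toLin_self _ _ _ _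
      rw [h2, Submodule.coe_sum]
      exact Finset.sum_congr rfl fun i _ => by rw [Submodule.coe_smul]
    · rw [← LinearMap.charpoly_toMatrix φ bs, Matrix.reverse_charpoly]
      rfl

/-- the restriction of `F` to the invariants -/
theorem exists_restrict {ρ : G → Module.End L V} {I : Set G} {F : G}
    (h : ∀ x ∈ inv ρ I, ρ F x ∈ inv ρ I) :
    ∃ φ : Module.End L (inv ρ I), ∀ x, (φ x : V) = ρ F x :=
  ⟨(ρ F).restrict h, fun _ => rfl⟩

theorem aeval_intertwine {A B : Type} [AddCommGroup A] [Module L A] [AddCommGroup B] [Module L B]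
    (p : A →ₗ[L] B) (f : Module.End L A) (g : Module.End L B) (h : ∀ x, p (f x) = g (p x))
    (Q : L[X]) (x : A) : p (aeval f Q x) = aeval g Q (p x) := by
  induction Q using Polynomial.induction_on' with
  | add P Q hP hQ => rw [map_add, map_add, LinearMap.add_apply, map_add, hP, hQ,
      LinearMap.add_apply]
  | monomial n t =>
    rw [aeval_monomial, aeval_monomial, Module.End.mul_apply, Module.End.mul_apply,
      Module.algebraMap_end_apply, Module.algebraMap_end_apply, map_smul]
    congr 1
    induction n with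
    | zero => simp
    | succ n ih => rw [pow_succ', pow_succ', Module.End.mul_apply, Module.End.mul_apply, h, ih]

end

/-- The roots of a rational polynomial `P` which is the reversed characteristic polynomial of `f`. -/
theorem root_rational (hroot : S_ROOT) {L V : Type} [Field L] [CharZero L] [AddCommGroup V]
    [Module L V] [FiniteDimensional L V] (f : Module.End L V) (P Q : ℚ[X])
    (h : f.charpoly.reverse = P.map (algebraMap ℚ L))
    (hQ : aeval f (Q.map (algebraMap ℚ L)) = 0) (hP0 : P.coeff 0 = 1) (z : ℂ)
    (hz : aeval z P = 0) : z ≠ 0 ∧ aeval z⁻¹ Q = 0 := by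
  have hz0 : z ≠ 0 := by
    rintro rfl
    rw [Polynomial.aeval_def, Polynomial.eval₂_at_zero, hP0, map_one] at hz
    exact one_ne_zero hz
  have hPne : P ≠ 0 := by
    rintro rfl
    simp at hP0
  have hint : IsIntegral ℚ z := (isAlgebraic_iff_isIntegral.1 ⟨P, hPne, hz⟩)
  have hirr := minpoly.irreducible hint
  have hmon := minpoly.monic hint
  obtain ⟨z', hz'⟩ : ∃ z' : AlgebraicClosure L, aeval z' (minpoly ℚ z) = 0 := by
    have := IsAlgClosed.exists_aeval_eq_zero (AlgebraicClosure L) (minpoly ℚ z)
      (minpoly.degree_pos hint).ne'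
    exact this
  have hmin : minpoly ℚ z = minpoly ℚ z' := minpoly.eq_of_irreducible_of_monic hirr hz' hmon
  have hPz' : aeval z' P = 0 := by
    obtain ⟨t, ht⟩ := minpoly.dvd ℚ z hz
    rw [ht, map_mul, hz', zero_mul]
  have hcomp : (algebraMap L (AlgebraicClosure L)).comp (algebraMap ℚ L) =
      algebraMap ℚ (AlgebraicClosure L) := RingHom.ext_rat _ _
  obtain ⟨hz'0, h2⟩ := hroot L V (AlgebraicClosure L) (algebraMap L (AlgebraicClosure L)) f
    (Q.map (algebraMap ℚ L)) hQ z' (by rw [h, Polynomial.eval₂_map, hcomp]; exact hPz')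
  rw [Polynomial.eval₂_map, hcomp] at h2
  have hQr : aeval z' Q.reverse = 0 := by
    letI : Invertible z'⁻¹ := invertibleOfNonzero (inv_ne_zero hz'0)
    have h3 := (Polynomial.eval₂_reverse_eq_zero_iff (algebraMap ℚ (AlgebraicClosure L)) z'⁻¹ Q).2 h2
    rw [invOf_eq_inv, inv_inv] at h3
    exact h3
  refine ⟨hz0, ?_⟩
  have hQr2 : aeval z Q.reverse = 0 := by
    obtain ⟨t, ht⟩ := minpoly.dvd ℚ z' hQr
    rw [ht, map_mul, ← hmin, minpoly.aeval, zero_mul]
  letI : Invertible z⁻¹ := invertibleOfNonzero (inv_ne_zero hz0)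
  refine (Polynomial.eval₂_reverse_eq_zero_iff (algebraMap ℚ ℂ) z⁻¹ Q).1 ?_
  rw [invOf_eq_inv, inv_inv]
  exact hQr2

end Pool.Agent.Helper51K9.LI
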