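import Mathlib

/-!
# Leaves (linear algebra) for `MP_a3c811_ag.LowWeightFactors`
-/

set_option autoImplicit false

namespace Pool.Agent.Helper51K9.LI

open Polynomial

/-- characteristic polynomials in a short exact sequence -/
def S_EX : Prop :=
  ∀ (L A B C : Type) [Field L] [AddCommGroup A] [Module L A] [FiniteDimensional L A]
    [AddCommGroup B] [Module L B] [FiniteDimensional L B] [AddCommGroup C] [Module L C]
    [FiniteDimensional L C] (j : A →ₗ[L] B) (p : B →ₗ[L] C), Function.Injective j →
    Function.Surjective p → (∀ b, p b = 0 ↔ ∃ a, j a = b) →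
    ∀ (f : Module.End L A) (g : Module.End L B) (h : Module.End L C),
      (∀ a, g (j a) = j (f a)) → (∀ b, p (g b) = h (p b)) →
      g.charpoly = f.charpoly * h.charpoly

/-- an endomorphism with values in a stable subspace has the same reversed characteristic
polynomial as its restriction -/
def S_NIL : Prop :=
  ∀ (L A B : Type) [Field L] [AddCommGroup A] [Module L A] [FiniteDimensional L A]
    [AddCommGroup B] [Module L B] [FiniteDimensional L B] (j : A →ₗ[L] B), Function.Injective j →
    ∀ (f : Module.End L A) (g : Module.End L B), (∀ a, g (j a) = j (f a)) →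
      (∀ b, ∃ a, j a = g b) → g.charpoly.reverse = f.charpoly.reverse

/-- the inverses of the roots of `det (1 - T f)` are roots of every polynomial which kills `f` -/
def S_ROOT : Prop :=
  ∀ (L V Ω : Type) [Field L] [AddCommGroup V] [Module L V] [FiniteDimensional L V] [Field Ω]
    (i : L →+* Ω) (f : Module.End L V) (Q : L[X]), aeval f Q = 0 →
    ∀ z : Ω, f.charpoly.reverse.eval₂ i z = 0 → z ≠ 0 ∧ Q.eval₂ i z⁻¹ = 0

/-- averaging over a subgroup of finite index: there are finitely many elements `s a` of `H`, which do not depend on the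
representation, such that in every representation of `H` in which `H'` acts trivially the average of the `ρ (s a)` is a
projector onto the invariants of `H`. -/
def S_AVG : Prop :=
  ∀ (G : Type) [Group G] (H H' : Subgroup G), H' ≤ H → H'.relIndex H ≠ 0 →
    ∃ (N : ℕ) (s : Fin N → G), 0 < N ∧ (∀ a, s a ∈ H) ∧
      ∀ (L V : Type) [Field L] [CharZero L] [AddCommGroup V] [Module L V] (ρ : G → Module.End L V),
        (∀ g ∈ H, ∀ h ∈ H, ρ (g * h) = ρ g * ρ h) → (∀ h ∈ H', ρ h = 1) →
        ((∀ v : V, ∀ h ∈ H, ρ h (((N : L)⁻¹ • ∑ a, ρ (s a)) v) = ((N : L)⁻¹ • ∑ a, ρ (s a)) v) ∧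
          ∀ v : V, (∀ h ∈ H, ρ h v = v) → ((N : L)⁻¹ • ∑ a, ρ (s a)) v = v)

end Pool.Agent.Helper51K9.LI
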