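import Mathlib

/-!
# Leaves for `MP_a3c811_ag.OnePrimeSuffices`
-/

set_option autoImplicit false

namespace Pool.Agent.Helper51K9.LI

open Polynomial

/-- regularity of a ring of operators with a nondegenerate rational trace (the case `σ = 1` of `S_REG` in
`Helper60K9/EL/Stm.lean`, proved by helper61 as `reg` in `Helper60K9/EL/Reg.lean`) -/
def S_RG0 : Prop :=
  ∀ (K V : Type) [Field K] [CharZero K] [AddCommGroup V] [Module K V] [Module.Finite K V]
    (R : Subring (Module.End K V)), (∀ (c : ℚ), ∀ x ∈ R, (c : K) • x ∈ R) →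
    (∀ x ∈ R, ∃ c : ℚ, LinearMap.trace K V x = (c : K)) →
    (∀ x ∈ R, (∀ y ∈ R, LinearMap.trace K V (y * x) = 0) → x = 0) →
    ∀ D ∈ R, ∃ C ∈ R, D * C * D = D

/-- [RK] `D` acts on all `(L l) ^ (m l)`, with rational characteristic polynomials which do not depend on `l`; for
one `l₀` the numerically trivial elements of `D` act as zero. Then for every `d` in `D` the rank of `d` for `l₀` is the
minimal one, and there is a `u` in `D`, the same for all `l`, with `d u d = d` for all `l` for which the rank of `d` is the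
minimal one. PROOF. (1) `S_RG0` for the range of `T l₀` (as operators on `(L l₀) ^ (m l₀)`, `Matrix.toLinAlgEquiv'`):
there is `u₀` with `T l₀ (d u₀ d) = T l₀ d`. Put `x = d u₀`, `z = x ^ 2 - x`. (2) `T l₀ z = 0`, so the
characteristic polynomial of `T l z` is `X ^ M`, `M = m l`, for all `l` (the degree of `χ` is `m l`, so `m` is
constant), so `(T l z) ^ M = 0` for all `l` (Cayley-Hamilton). (3) `g = 1 - (1 - x ^ M') ^ M'` with `M' = M + 1` lies in
`x D`, say `g = d * u`, and `g (1 - g)` is divisible by `(x (1 - x)) ^ M'`, so `T l g` is idempotent for all `l`, and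
`T l₀ g = T l₀ x`. (4) the rank of an idempotent is its trace, which is `-` the coefficient of `X ^ (M - 1)` of its
characteristic polynomial, so the rank `r` of `T l g` does not depend on `l`; for `l₀` it is the rank of `T l₀ d`
(`d u₀ d = d`). (5) The column space of `T l g` is in that of `T l d`; if the ranks are equal they are equal, and then
`T l (g * d) = T l d`, as `T l g` is the identity on its range. -/
def S_RK : Prop :=
  ∀ (Λ : Type) (L : Λ → Type) [∀ l, Field (L l)] [∀ l, CharZero (L l)] (D : Type) [Ring D]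
    [Algebra ℚ D] (m : Λ → ℕ) (T : ∀ l, D →+* Matrix (Fin (m l)) (Fin (m l)) (L l)),
    (∀ x, ∃ χ : ℚ[X], ∀ l, (T l x).charpoly = χ.map (algebraMap ℚ (L l))) →
    ∀ l₀, (∀ x, (∀ y, (T l₀ (x * y)).trace = 0) → T l₀ x = 0) →
    ∀ d : D, ∃ u : D, ∀ l, (T l₀ d).rank ≤ (T l d).rank ∧
      ((T l d).rank = (T l₀ d).rank → T l (d * u * d) = T l d)

/-- [RKE] the rank of an element of `D` whose image for every `l` is idempotent does not depend on `l` (rank = trace of
the idempotent; the trace is a coefficient of `χ`; `m` is constant as it is the degree of `χ`) -/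
def S_RKE : Prop :=
  ∀ (Λ : Type) (L : Λ → Type) [∀ l, Field (L l)] [∀ l, CharZero (L l)] (m : Λ → ℕ)
    (A : ∀ l, Matrix (Fin (m l)) (Fin (m l)) (L l)), (∀ l, A l * A l = A l) →
    (∃ χ : ℚ[X], ∀ l, (A l).charpoly = χ.map (algebraMap ℚ (L l))) →
    ∀ l l', (A l).rank = (A l').rank

/-- [BT] block triangular matrices -/
def S_BT : Prop :=
  ∀ (L : Type) [Field L] (s n : ℕ) (k : Fin s → ℕ) (R : Matrix (Fin n) (Fin n) L)
    (A : ∀ w, Matrix (Fin (k w)) (Fin (k w)) L)
    (B : Matrix (Fin n) (Σ w, Fin (k w)) L) (B' : Matrix (Σ w, Fin (k w)) (Fin n) L),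
    B * B' = 1 → B' * B = 1 → (B' * R * B).BlockTriangular Sigma.fst →
    (∀ w, (B' * R * B).submatrix (Sigma.mk w) (Sigma.mk w) = A w) →
    R.charpoly = ∏ w, (A w).charpoly

end Pool.Agent.Helper51K9.LI
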