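import Pool.Agent.Helper51K9.LI.Inv
import Pool.Agent.Helper86K9.LI.Lin

/-!
# The part of low weights of the local factors: abstract form
-/

set_option autoImplicit false
set_option linter.unusedSectionVars false
set_option linter.unusedVariables false

namespace Pool.Agent.Helper51K9.LI

open Polynomial

/-- local data for one `l` -/
theorem avg_factor (hnil : S_NIL) {G L V : Type} [Group G] [Field L] [CharZero L] [AddCommGroup V]
    [Module L V] [FiniteDimensional L V] {S : Set G} {I : Subgroup G} {F : G}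
    (hIS : ∀ g ∈ I, g ∈ S) (hFS : F ∈ S) (hn : ∀ g ∈ I, F⁻¹ * g * F ∈ I)
    (r : G → Module.End L V) (hr : ∀ g ∈ S, ∀ h ∈ S, r (g * h) = r g * r h)
    (av : Module.End L V) (h1 : ∀ v : V, ∀ h ∈ I, r h (av v) = av v)
    (h2 : ∀ v : V, (∀ h ∈ I, r h v = v) → av v = v)
    (φ : Module.End L (inv r I)) (hφ : ∀ x, (φ x : V) = r F x) :
    (r F * av).charpoly.reverse = φ.charpoly.reverse := by
  refine hnil L (inv r I) V (inv r I).subtype (inv r I).injective_subtype φ (r F * av) ?_ ?_
  · intro a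
    rw [Module.End.mul_apply, Submodule.subtype_apply, Submodule.subtype_apply, hφ,
      h2 _ (mem_inv.1 a.2)]
  · intro b
    have hb : r F (av b) ∈ inv r I := by
      refine mem_inv.2 fun g hg => ?_
      have hg' : g ∈ I := hg
      rw [← Module.End.mul_apply, ← hr g (hIS g hg') F hFS]
      have h3 : g * F = F * (F⁻¹ * g * F) := by group
      rw [h3, hr F hFS _ (hIS _ (hn g hg')), Module.End.mul_apply, h1 b _ (hn g hg')]
    exact ⟨⟨_, hb⟩, rfl⟩

theorem stab_inv {G L V : Type} [Group G] [Field L] [AddCommGroup V]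
    [Module L V] {S : Set G} {I : Subgroup G} {F : G}
    (hIS : ∀ g ∈ I, g ∈ S) (hFS : F ∈ S) (hn : ∀ g ∈ I, F⁻¹ * g * F ∈ I)
    (r : G → Module.End L V) (hr : ∀ g ∈ S, ∀ h ∈ S, r (g * h) = r g * r h) :
    ∀ x ∈ inv r I, r F x ∈ inv r I := by
  intro x hx
  refine mem_inv.2 fun g hg => ?_
  have hg' : g ∈ I := hg
  rw [← Module.End.mul_apply, ← hr g (hIS g hg') F hFS]
  have h3 : g * F = F * (F⁻¹ * g * F) := by group
  rw [h3, hr F hFS _ (hIS _ (hn g hg')), Module.End.mul_apply, mem_inv.1 hx _ (hn g hg')]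

section

variable {G : Type} [Group G] {S : Set G} {Λ : Type} {L : Λ → Type} [∀ l, Field (L l)]
    [∀ l, CharZero (L l)]
    {V : Λ → Type} [∀ l, AddCommGroup (V l)] [∀ l, Module (L l) (V l)]
    [∀ l, FiniteDimensional (L l) (V l)]
    {ρ : ∀ l, G →* Module.End (L l) (V l)} {W : ∀ l, Submodule (L l) (V l)}
    {U : Fin 2 → Λ → Type} [∀ w l, AddCommGroup (U w l)] [∀ w l, Module (L l) (U w l)]
    [∀ w l, FiniteDimensional (L l) (U w l)]
    {act : ∀ w l, G → Module.End (L l) (U w l)}
    {j : ∀ l, U 0 l →ₗ[L l] V l} {p : ∀ l, W l →ₗ[L l] U 1 l}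

/-- the exact sequences of the invariants, for one `l` -/
theorem exact_factor (hex : S_EX) (hroot : S_ROOT)
    (H : IsFiltered S L V (fun l g => ρ l g) W U act j p) {I : Subgroup G}
    {F : G} (hIS : ∀ g ∈ I, g ∈ S) (hFS : F ∈ S) (hmul : ∀ g ∈ S, ∀ h ∈ S, g * h ∈ S)
    (hn : ∀ g ∈ I, F⁻¹ * g * F ∈ I) (I' : Subgroup G) (hI' : I' ≤ I) (hfin : I'.relIndex I ≠ 0)
    (htriv : ∀ l, ∀ g ∈ I', ∀ x ∈ W l, ρ l g x = x)
    (N : ℕ) (s : Fin N → G) (hs : ∀ a, s a ∈ I)
    (havg : ∀ (L V : Type) [Field L] [CharZero L] [AddCommGroup V] [Module L V]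
      (ρ : G → Module.End L V),
        (∀ g ∈ I, ∀ h ∈ I, ρ (g * h) = ρ g * ρ h) → (∀ h ∈ I', ρ h = 1) →
        ((∀ v : V, ∀ h ∈ I, ρ h (((N : L)⁻¹ • ∑ a, ρ (s a)) v) = ((N : L)⁻¹ • ∑ a, ρ (s a)) v) ∧
          ∀ v : V, (∀ h ∈ I, ρ h v = v) → ((N : L)⁻¹ • ∑ a, ρ (s a)) v = v))
    (l : Λ) (Q : ℚ[X])
    (hQ : ∀ x : V l, aeval (ρ l F) (Q.map (algebraMap ℚ (L l))) x ∈ W l)
    (φ : Module.End (L l) (inv (fun g => ρ l g) I)) (hφ : ∀ x, (φ x : V l) = ρ l F x)
    (φ0 : Module.End (L l) (inv (act 0 l) I)) (hφ0 : ∀ x, (φ0 x : U 0 l) = act 0 l F x)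
    (φ1 : Module.End (L l) (inv (act 1 l) I)) (hφ1 : ∀ x, (φ1 x : U 1 l) = act 1 l F x) :
    ∃ R : (L l)[X], φ.charpoly.reverse = φ0.charpoly.reverse * φ1.charpoly.reverse * R ∧
      ∀ (i : L l →+* ℂ) (z : ℂ), R.eval₂ i z = 0 → z ≠ 0 ∧ aeval z⁻¹ Q = 0 := by
  classical
  -- the action on `W`
  let rW : G → Module.End (L l) (W l) := fun g =>
    if hg : g ∈ S then (ρ l g).restrict (H.stable l g hg) else 0
  have hrW : ∀ g ∈ S, ∀ x : W l, (rW g x : V l) = ρ l g x := by
    intro g hg x
    change ((if hg : g ∈ S then (ρ l g).restrict (H.stable l g hg) else 0 :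
      Module.End (L l) (W l)) x : V l) = _
    rw [dif_pos hg]
    rfl
  have hρmul : ∀ g ∈ S, ∀ h ∈ S, (fun g => ρ l g) (g * h) = (fun g => ρ l g) g * (fun g => ρ l g) h :=
    fun g _ h _ => map_mul _ _ _
  have hWmul : ∀ g ∈ S, ∀ h ∈ S, rW (g * h) = rW g * rW h := by
    intro g hg h hh
    ext1 x
    apply Subtype.ext
    rw [hrW _ (hmul g hg h hh), Module.End.mul_apply, hrW _ hg, hrW _ hh, map_mul,
      Module.End.mul_apply]
  have hp : ∀ g ∈ S, ∀ x : W l, p l (rW g x) = act 1 l g (p l x) :=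
    fun g hg x => H.equivariant_p l g hg x _ (hrW g hg x)
  have h1mul : ∀ g ∈ S, ∀ h ∈ S, act 1 l (g * h) = act 1 l g * act 1 l h := by
    intro g hg h hh
    ext1 u
    obtain ⟨x, rfl⟩ := H.surjective l u
    rw [← hp _ (hmul g hg h hh), Module.End.mul_apply, ← hp _ hh, ← hp _ hg, hWmul g hg h hh,
      Module.End.mul_apply]
  have h0mul : ∀ g ∈ S, ∀ h ∈ S, act 0 l (g * h) = act 0 l g * act 0 l h := by
    intro g hg h hh
    ext1 u
    apply H.injective l
    have e1 := H.equivariant_j l _ (hmul g hg h hh) u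
    have e2 := H.equivariant_j l g hg (act 0 l h u)
    have e3 := H.equivariant_j l h hh u
    rw [Module.End.mul_apply, ← e1, ← e2, ← e3]
    change ρ l (g * h) _ = ρ l g (ρ l h _)
    rw [map_mul, Module.End.mul_apply]
  have hWtriv : ∀ g ∈ I', rW g = 1 := by
    intro g hg
    ext1 x
    apply Subtype.ext
    rw [hrW g (hIS g (hI' hg)), htriv l g hg x x.2]
    rfl
  have h1triv : ∀ g ∈ I', act 1 l g = 1 := by
    intro g hg
    ext1 u
    obtain ⟨x, rfl⟩ := H.surjective l u
    rw [← hp _ (hIS g (hI' hg)), hWtriv g hg]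
    rfl
  obtain ⟨aW1, aW2⟩ := havg (L l) (W l) rW (fun g hg h hh => hWmul g (hIS g hg) h (hIS h hh)) hWtriv
  obtain ⟨-, a12⟩ := havg (L l) (U 1 l) (act 1 l)
    (fun g hg h hh => h1mul g (hIS g hg) h (hIS h hh)) h1triv
  -- the restriction to the invariants of `W`
  obtain ⟨φW, hφW⟩ := exists_restrict (stab_inv hIS hFS hn rW hWmul)
  -- the first exact sequence
  have hA : φW.charpoly = φ0.charpoly * φ1.charpoly := by
    let j' : inv (act 0 l) I →ₗ[L l] inv rW I :=
      { toFun := fun u => ⟨⟨j l u, H.range_le l u⟩, mem_inv.2 fun g hg => by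
          apply Subtype.ext
          rw [hrW g (hIS g hg)]
          change ρ l g (j l u) = j l u
          have e := H.equivariant_j l g (hIS g hg) u
          rw [mem_inv.1 u.2 g hg] at e
          exact e⟩
        map_add' := fun u v => by
          apply Subtype.ext
          apply Subtype.ext
          exact map_add (j l) _ _
        map_smul' := fun t u => by
          apply Subtype.ext
          apply Subtype.ext
          exact map_smul (j l) _ _ }
    let p' : inv rW I →ₗ[L l] inv (act 1 l) I :=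
      { toFun := fun x => ⟨p l x, mem_inv.2 fun g hg => by
          rw [← hp g (hIS g hg), mem_inv.1 x.2 g hg]⟩
        map_add' := fun u v => by
          apply Subtype.ext
          exact map_add (p l) _ _
        map_smul' := fun t u => by
          apply Subtype.ext
          exact map_smul (p l) _ _ }
    refine hex (L l) _ _ _ j' p' ?_ ?_ ?_ φ0 φW φ1 ?_ ?_
    · intro u v huv
      apply Subtype.ext
      apply H.injective l
      exact congrArg (fun t : inv rW I => ((t : W l) : V l)) huv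
    · intro u
      obtain ⟨x, hx⟩ := H.surjective l u
      refine ⟨⟨((N : L l)⁻¹ • ∑ a, rW (s a)) x, mem_inv.2 fun g hg => aW1 x g hg⟩, ?_⟩
      apply Subtype.ext
      change p l (((N : L l)⁻¹ • ∑ a, rW (s a)) x) = u
      rw [← a12 (u : U 1 l) (mem_inv.1 u.2), ← hx, LinearMap.smul_apply, LinearMap.smul_apply,
        map_smul, LinearMap.sum_apply, LinearMap.sum_apply, map_sum]
      congr 1
      exact Finset.sum_congr rfl fun a _ => hp _ (hIS _ (hs a)) x
    · intro x
      constructor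
      · intro hx
        obtain ⟨u, hu⟩ := (H.exact l (x : W l)).1 (congrArg Subtype.val hx)
        refine ⟨⟨u, mem_inv.2 fun g hg => ?_⟩, ?_⟩
        · apply H.injective l
          have e := H.equivariant_j l g (hIS g hg) u
          rw [← e, hu, ← hrW g (hIS g hg), mem_inv.1 x.2 g hg]
        · apply Subtype.ext
          apply Subtype.ext
          exact hu
      · rintro ⟨u, rfl⟩
        apply Subtype.ext
        exact (H.exact l _).2 ⟨u, rfl⟩
    · intro u
      apply Subtype.ext
      apply Subtype.ext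
      rw [hφW, hrW F hFS]
      change ρ l F (j l u) = j l (φ0 u)
      rw [hφ0]
      exact H.equivariant_j l F hFS u
    · intro x
      apply Subtype.ext
      rw [hφ1]
      change p l (φW x) = act 1 l F (p l x)
      rw [hφW, hp F hFS]
  -- the second exact sequence
  let q : inv (fun g => ρ l g) I →ₗ[L l] (V l ⧸ W l) :=
    (W l).mkQ.comp (inv (fun g => ρ l g) I).subtype
  let Cq : Submodule (L l) (V l ⧸ W l) := LinearMap.range q
  let Fbar : Module.End (L l) (V l ⧸ W l) := (W l).mapQ (W l) (ρ l F) (fun x hx => H.stable l F hFS x hx)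
  have hFbar : ∀ x, Fbar ((W l).mkQ x) = (W l).mkQ (ρ l F x) := fun x => rfl
  have hCq : ∀ x ∈ Cq, Fbar x ∈ Cq := by
    rintro _ ⟨x, rfl⟩
    refine ⟨φ x, ?_⟩
    change (W l).mkQ (φ x : V l) = Fbar ((W l).mkQ (x : V l))
    rw [hφ, hFbar]
  let hC : Module.End (L l) Cq := Fbar.restrict hCq
  have hB : φ.charpoly = φW.charpoly * hC.charpoly := by
    let i' : inv rW I →ₗ[L l] inv (fun g => ρ l g) I :=
      { toFun := fun x => ⟨((x : W l) : V l), mem_inv.2 fun g hg => by
          rw [← hrW g (hIS g hg), mem_inv.1 x.2 g hg]⟩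
        map_add' := fun u v => rfl
        map_smul' := fun t u => rfl }
    refine hex (L l) _ _ _ i' (q.rangeRestrict) ?_ q.surjective_rangeRestrict ?_ φW φ hC ?_ ?_
    · intro u v huv
      apply Subtype.ext
      apply Subtype.ext
      exact congrArg (fun t : inv (fun g => ρ l g) I => (t : V l)) huv
    · intro x
      constructor
      · intro hx
        have h1 : (W l).mkQ (x : V l) = 0 := congrArg Subtype.val hx
        rw [Submodule.mkQ_apply, Submodule.Quotient.mk_eq_zero] at h1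
        refine ⟨⟨⟨x, h1⟩, mem_inv.2 fun g hg => ?_⟩, ?_⟩
        · apply Subtype.ext
          rw [hrW g (hIS g hg)]
          exact mem_inv.1 x.2 g hg
        · rfl
      · rintro ⟨u, rfl⟩
        apply Subtype.ext
        change (W l).mkQ ((u : W l) : V l) = 0
        rw [Submodule.mkQ_apply, Submodule.Quotient.mk_eq_zero]
        exact u.1.2
    · intro u
      apply Subtype.ext
      rw [hφ]
      change ρ l F ((u : W l) : V l) = ((φW u : W l) : V l)
      rw [hφW, hrW F hFS]
    · intro x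
      apply Subtype.ext
      change (W l).mkQ (φ x : V l) = Fbar ((W l).mkQ (x : V l))
      rw [hφ, hFbar]
  refine ⟨hC.charpoly.reverse, ?_, ?_⟩
  · rw [hB, hA, Polynomial.reverse_mul_of_domain, Polynomial.reverse_mul_of_domain]
  · intro i z hz
    have hk : aeval hC (Q.map (algebraMap ℚ (L l))) = 0 := by
      ext1 x
      apply Subtype.ext
      have e1 := aeval_intertwine Cq.subtype hC Fbar (fun _ => rfl)
        (Q.map (algebraMap ℚ (L l))) x
      change Cq.subtype _ = _
      rw [e1]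
      obtain ⟨y, hy⟩ := x.2
      change aeval Fbar (Q.map (algebraMap ℚ (L l))) (x : V l ⧸ W l) = 0
      rw [← hy]
      change aeval Fbar (Q.map (algebraMap ℚ (L l))) ((W l).mkQ (y : V l)) = 0
      rw [← aeval_intertwine (W l).mkQ (ρ l F) Fbar (fun x => (hFbar x).symm)]
      rw [Submodule.mkQ_apply, Submodule.Quotient.mk_eq_zero]
      exact hQ _
    obtain ⟨h1, h2⟩ := hroot (L l) _ ℂ i hC _ hk z hz
    refine ⟨h1, ?_⟩
    rw [Polynomial.eval₂_map, RingHom.ext_rat (i.comp (algebraMap ℚ (L l))) (algebraMap ℚ ℂ)] at h2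
    exact h2

end

end Pool.Agent.Helper51K9.LI
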