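import Mathlib

/-!
# Idempotents in semisimple rings
-/

set_option autoImplicit false

namespace Pool.Agent.Helper51K9.LI

variable {D : Type} [Ring D]

theorem vnr (h : IsSemisimpleRing D) (a : D) : ∃ u : D, a * u * a = a := by
  obtain ⟨g, hg, hs⟩ := IsSemisimpleRing.ideal_eq_span_idempotent (Ideal.span {a})
  have h1 : g ∈ Ideal.span {a} := by rw [hs]; exact Ideal.subset_span rfl
  have h2 : a ∈ Ideal.span {g} := by rw [← hs]; exact Ideal.subset_span rfl
  obtain ⟨u, hu⟩ := Ideal.mem_span_singleton'.1 h1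
  obtain ⟨v, hv⟩ := Ideal.mem_span_singleton'.1 h2
  refine ⟨u, ?_⟩
  rw [mul_assoc, hu, ← hv, mul_assoc, hg.eq]

/-- the projector onto the cocycles -/
theorem projZ (h : IsSemisimpleRing D) (e b : D) :
    ∃ f s t : D, e * f = f ∧ b * f = 0 ∧ 1 - f = s * (1 - e) + t * b := by
  obtain ⟨g, hg, hs⟩ := IsSemisimpleRing.ideal_eq_span_idempotent (Ideal.span {1 - e, b})
  have h1 : g ∈ Ideal.span {1 - e, b} := by rw [hs]; exact Ideal.subset_span rfl
  have h2 : 1 - e ∈ Ideal.span {g} := by rw [← hs]; exact Ideal.subset_span (by simp)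
  have h3 : b ∈ Ideal.span {g} := by rw [← hs]; exact Ideal.subset_span (by simp)
  obtain ⟨u, hu⟩ := Ideal.mem_span_singleton'.1 h2
  obtain ⟨v, hv⟩ := Ideal.mem_span_singleton'.1 h3
  obtain ⟨s, t, hst⟩ := Ideal.mem_span_pair.1 h1
  have hg0 : g * (1 - g) = 0 := by rw [mul_sub, hg.eq, mul_one, sub_self]
  refine ⟨1 - g, s, t, ?_, ?_, ?_⟩
  · have : (1 - e) * (1 - g) = 0 := by rw [← hu, mul_assoc, hg0, mul_zero]
    rw [sub_mul, one_mul, sub_eq_zero] at this
    exact this.symm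
  · rw [← hv, mul_assoc, hg0, mul_zero]
  · rw [sub_sub_cancel, hst]

end Pool.Agent.Helper51K9.LI
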