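import Pool.Agent.Helper51K9.LI.St
import Pool.Agent.Helper51K9.LI.Lv
import Pool.Agent.Helper51K9.LI.Vnr

/-!
# Endomorphisms of the cohomology which are realised by correspondences
-/

set_option autoImplicit false
set_option linter.unusedSectionVars false
set_option linter.unusedVariables false

namespace Pool.Agent.Helper51K9.LI

open Polynomial

theorem rev_map {K K' : Type} [Field K] [Field K'] (i : K →+* K') (P : K[X]) :
    (P.map i).reverse = P.reverse.map i := by
  ext n
  rw [Polynomial.coeff_reverse, Polynomial.coeff_map, Polynomial.coeff_map,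
    Polynomial.coeff_reverse, Polynomial.natDegree_map]

section

variable {G : Type} {S : Set G} {Λ : Type} {L : Λ → Type} [∀ l, Field (L l)]
    [∀ l, CharZero (L l)] {U : Λ → Type} [∀ l, AddCommGroup (U l)] [∀ l, Module (L l) (U l)]
    {act : ∀ l, G → Module.End (L l) (U l)} {D : Type} [Ring D] [Algebra ℚ D]
    {E : Λ → Type} [∀ l, AddCommGroup (E l)] [∀ l, Module (L l) (E l)]
    [∀ l, FiniteDimensional (L l) (E l)]
    {T : ∀ l, D →+* Module.End (L l) (E l)} {e a b : D} {c : G → D}
    {α : ∀ l, U l →ₗ[L l] E l} {β : ∀ l, E l →ₗ[L l] U l}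

/-- `x` induces `y` on the cohomology -/
structure Real (T : ∀ l, D →+* Module.End (L l) (E l)) (e a b : D)
    (α : ∀ l, U l →ₗ[L l] E l) (β : ∀ l, E l →ₗ[L l] U l) (x : D)
    (y : ∀ l, Module.End (L l) (U l)) : Prop where
  ce : x * e = e * x
  ca : x * a = a * x
  cb : x * b = b * x
  ind : ∀ l z, T l e z = z → T l b z = 0 → ∃ w, T l x z = α l (y l (β l z)) + T l a w

theorem Real.mk' (H : IsComplex S L U act E T e a b c α β) {g : G} (hg : g ∈ S) :
    Real T e a b α β (c g) (fun l => act l g) :=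
  ⟨(H.commute g hg).1, (H.commute g hg).2.1, (H.commute g hg).2.2, H.induce g hg⟩

theorem Real.zero : Real (U := U) (L := L) T e a b α β 0 (fun l => 0) :=
  ⟨by simp, by simp, by simp, fun l z _ _ => ⟨0, by simp⟩⟩

theorem Real.add {x x' : D} {y y' : ∀ l, Module.End (L l) (U l)} (h : Real T e a b α β x y)
    (h' : Real T e a b α β x' y') : Real T e a b α β (x + x') (fun l => y l + y' l) := by
  refine ⟨by rw [add_mul, mul_add, h.ce, h'.ce], by rw [add_mul, mul_add, h.ca, h'.ca],
    by rw [add_mul, mul_add, h.cb, h'.cb], fun l z h1 h2 => ?_⟩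
  obtain ⟨w, hw⟩ := h.ind l z h1 h2
  obtain ⟨w', hw'⟩ := h'.ind l z h1 h2
  refine ⟨w + w', ?_⟩
  rw [map_add, LinearMap.add_apply, hw, hw', LinearMap.add_apply, map_add, map_add]
  abel

theorem Real.sum {ι : Type} (s : Finset ι) {x : ι → D} {y : ι → ∀ l, Module.End (L l) (U l)}
    (h : ∀ i ∈ s, Real T e a b α β (x i) (y i)) :
    Real T e a b α β (∑ i ∈ s, x i) (fun l => ∑ i ∈ s, y i l) := by
  classical
  induction s using Finset.induction_on with
  | empty => simpa using Real.zero
  | insert i s hi ih =>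
    simp only [Finset.sum_insert hi]
    exact Real.add (h i (Finset.mem_insert_self i s))
      (ih fun k hk => h k (Finset.mem_insert_of_mem hk))

theorem T_inv (l : Λ) (N : ℕ) (hN : 0 < N) : T l (algebraMap ℚ D ((N : ℚ)⁻¹)) =
    (N : L l)⁻¹ • (1 : Module.End (L l) (E l)) := by
  have hN0 : (N : L l) ≠ 0 := by exact_mod_cast hN.ne'
  have h1 : (N : D) * algebraMap ℚ D ((N : ℚ)⁻¹) = 1 := by
    rw [← map_natCast (algebraMap ℚ D) N, ← map_mul, mul_inv_cancel₀ (by exact_mod_cast hN.ne'),
      map_one]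
  have h2 : (N : Module.End (L l) (E l)) * T l (algebraMap ℚ D ((N : ℚ)⁻¹)) = 1 := by
    rw [← map_natCast (T l) N, ← map_mul, h1, map_one]
  ext1 v
  have h3 := LinearMap.congr_fun h2 v
  rw [Module.End.mul_apply, Module.End.natCast_apply] at h3
  rw [LinearMap.smul_apply, Module.End.one_apply]
  rw [Module.End.one_apply] at h3
  rw [eq_inv_smul_iff₀ hN0, Nat.cast_smul_eq_nsmul]
  exact h3

theorem Real.smul {x : D} {y : ∀ l, Module.End (L l) (U l)} (h : Real T e a b α β x y) (N : ℕ)
    (hN : 0 < N) : Real T e a b α β (algebraMap ℚ D ((N : ℚ)⁻¹) * x)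
      (fun l => (N : L l)⁻¹ • y l) := by
  have hc : ∀ t : D, algebraMap ℚ D ((N : ℚ)⁻¹) * t = t * algebraMap ℚ D ((N : ℚ)⁻¹) :=
    fun t => Algebra.commutes _ _
  refine ⟨by rw [mul_assoc, h.ce, ← mul_assoc, hc e, mul_assoc],
    by rw [mul_assoc, h.ca, ← mul_assoc, hc a, mul_assoc],
    by rw [mul_assoc, h.cb, ← mul_assoc, hc b, mul_assoc], fun l z h1 h2 => ?_⟩
  obtain ⟨w, hw⟩ := h.ind l z h1 h2
  refine ⟨(N : L l)⁻¹ • w, ?_⟩
  rw [map_mul, Module.End.mul_apply, hw, T_inv l N hN]
  simp only [LinearMap.smul_apply, Module.End.one_apply, smul_add, map_smul]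

theorem Real.mul (H : IsComplex S L U act E T e a b c α β) {x x' : D}
    {y y' : ∀ l, Module.End (L l) (U l)} (h : Real T e a b α β x y)
    (h' : Real T e a b α β x' y') : Real T e a b α β (x * x') (fun l => y l * y' l) := by
  refine ⟨by rw [mul_assoc, h'.ce, ← mul_assoc, h.ce, mul_assoc],
    by rw [mul_assoc, h'.ca, ← mul_assoc, h.ca, mul_assoc],
    by rw [mul_assoc, h'.cb, ← mul_assoc, h.cb, mul_assoc], fun l z h1 h2 => ?_⟩
  obtain ⟨w, hw⟩ := h'.ind l z h1 h2
  obtain ⟨h3, h4⟩ := H.cocycle l (y' l (β l z))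
  obtain ⟨w', hw'⟩ := h.ind l _ h3 h4
  refine ⟨w' + T l x w, ?_⟩
  rw [map_mul, Module.End.mul_apply, hw, map_add, hw', H.section_]
  rw [map_add, add_assoc]
  congr 2
  rw [← Module.End.mul_apply, ← map_mul, h.ca, map_mul, Module.End.mul_apply]

variable [∀ l, FiniteDimensional (L l) (U l)]

/-- an endomorphism which is realised has a rational reversed characteristic polynomial, which does not depend on `l` -/
theorem Real.rational (hex : S_EX) (hnil : S_NIL) (H : IsComplex S L U act E T e a b c α β) {x : D}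
    {y : ∀ l, Module.End (L l) (U l)} (h : Real T e a b α β x y) :
    ∃ P : ℚ[X], P.coeff 0 = 1 ∧ (Nonempty Λ ∨ P = 1) ∧
      ∀ l, (y l).charpoly.reverse = P.map (algebraMap ℚ (L l)) := by
  obtain ⟨f, s, t, hef, hbf, hf⟩ := projZ H.semisimple e b
  obtain ⟨u, hu⟩ := vnr H.semisimple a
  obtain ⟨χ, hχ⟩ := H.charpoly (x * f)
  obtain ⟨ψ, hψ⟩ := H.charpoly (x * (a * u))
  obtain ⟨-, hea, -, hba⟩ := H.terms
  -- the key identity
  have key : ∀ l, χ.reverse.map (algebraMap ℚ (L l)) =
      ψ.reverse.map (algebraMap ℚ (L l)) * (y l).charpoly.reverse := by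
    intro l
    -- the subspaces
    let Z : Submodule (L l) (E l) := LinearMap.ker (1 - T l e) ⊓ LinearMap.ker (T l b)
    have hZ : ∀ z, z ∈ Z ↔ T l e z = z ∧ T l b z = 0 := by
      intro z
      rw [Submodule.mem_inf, LinearMap.mem_ker, LinearMap.mem_ker, LinearMap.sub_apply,
        Module.End.one_apply, sub_eq_zero, eq_comm]
    let N : Submodule (L l) (E l) := Z ⊓ LinearMap.ker (β l)
    have hN : ∀ z, z ∈ N ↔ z ∈ Z ∧ β l z = 0 := by
      intro z
      rw [Submodule.mem_inf, LinearMap.mem_ker]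
    let B : Submodule (L l) (E l) := LinearMap.range (T l a)
    have hB : ∀ z, z ∈ B ↔ ∃ w, T l a w = z := fun z => LinearMap.mem_range
    have hBN : B ≤ N := by
      intro z hz
      obtain ⟨w, rfl⟩ := (hB z).1 hz
      rw [hN, hZ]
      refine ⟨⟨?_, ?_⟩, H.coboundary l w⟩
      · rw [← Module.End.mul_apply, ← map_mul, hea]
      · rw [← Module.End.mul_apply, ← map_mul, hba, map_zero, LinearMap.zero_apply]
    have hNZ : N ≤ Z := inf_le_left
    -- stability
    have sZ : ∀ z ∈ Z, T l x z ∈ Z := by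
      intro z hz
      obtain ⟨h1, h2⟩ := (hZ z).1 hz
      refine (hZ _).2 ⟨?_, ?_⟩
      · rw [← Module.End.mul_apply, ← map_mul, ← h.ce, map_mul, Module.End.mul_apply, h1]
      · rw [← Module.End.mul_apply, ← map_mul, ← h.cb, map_mul, Module.End.mul_apply, h2, map_zero]
    have sB : ∀ z ∈ B, T l x z ∈ B := by
      intro z hz
      obtain ⟨w, rfl⟩ := (hB z).1 hz
      refine (hB _).2 ⟨T l x w, ?_⟩
      rw [← Module.End.mul_apply, ← map_mul, ← h.ca, map_mul, Module.End.mul_apply]
    have βx : ∀ z ∈ Z, β l (T l x z) = y l (β l z) := by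
      intro z hz
      obtain ⟨h1, h2⟩ := (hZ z).1 hz
      obtain ⟨w, hw⟩ := h.ind l z h1 h2
      rw [hw, map_add, H.section_, H.coboundary, add_zero]
    have xN : ∀ z ∈ N, T l x z ∈ B := by
      intro z hz
      obtain ⟨h0, h3⟩ := (hN z).1 hz
      obtain ⟨h1, h2⟩ := (hZ z).1 h0
      obtain ⟨w, hw⟩ := h.ind l z h1 h2
      rw [hw, h3, map_zero, map_zero, zero_add]
      exact (hB _).2 ⟨w, rfl⟩
    have sN : ∀ z ∈ N, T l x z ∈ N := fun z hz => hBN (xN z hz)
    -- the restrictions
    let xZ : Module.End (L l) Z := (T l x).restrict sZ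
    let xN' : Module.End (L l) N := (T l x).restrict sN
    let xB : Module.End (L l) B := (T l x).restrict sB
    have k1 : (T l (x * f)).charpoly.reverse = xZ.charpoly.reverse := by
      refine hnil (L l) Z (E l) Z.subtype Z.injective_subtype xZ (T l (x * f)) ?_ ?_
      · intro z
        change T l (x * f) z = T l x z
        have hz : T l f z = z := by
          obtain ⟨h1, h2⟩ := (hZ z).1 z.2
          have h4 := congrArg (fun r => T l r (z : E l)) hf
          simp only [map_sub, map_add, map_mul, map_one, LinearMap.sub_apply,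
            LinearMap.add_apply, Module.End.mul_apply, Module.End.one_apply, h1, h2, sub_self,
            map_zero, add_zero] at h4
          exact (sub_eq_zero.1 h4).symm
        rw [map_mul, Module.End.mul_apply, hz]
      · intro z
        have hz : T l (x * f) z ∈ Z := by
          rw [map_mul, Module.End.mul_apply]
          refine sZ _ ((hZ _).2 ⟨?_, ?_⟩)
          · rw [← Module.End.mul_apply, ← map_mul, hef]
          · rw [← Module.End.mul_apply, ← map_mul, hbf, map_zero, LinearMap.zero_apply]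
        exact ⟨⟨_, hz⟩, rfl⟩
    have k2 : (T l (x * (a * u))).charpoly.reverse = xB.charpoly.reverse := by
      refine hnil (L l) B (E l) B.subtype B.injective_subtype xB (T l (x * (a * u))) ?_ ?_
      · intro z
        change T l (x * (a * u)) z = T l x z
        obtain ⟨w, hw⟩ := (hB _).1 z.2
        have h5 : T l (a * u) (T l a w) = T l a w := by
          rw [← Module.End.mul_apply, ← map_mul, hu]
        rw [map_mul, Module.End.mul_apply, ← hw, h5]
      · intro z
        have hz : T l (x * (a * u)) z ∈ B := by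
          rw [map_mul, Module.End.mul_apply]
          refine sB _ ((hB _).2 ⟨T l u z, ?_⟩)
          rw [← Module.End.mul_apply, ← map_mul]
        exact ⟨⟨_, hz⟩, rfl⟩
    have k3 : xN'.charpoly.reverse = xB.charpoly.reverse := by
      refine hnil (L l) B N (Submodule.inclusion hBN) (Submodule.inclusion_injective hBN) xB xN' ?_ ?_
      · intro z
        rfl
      · intro z
        exact ⟨⟨_, xN z z.2⟩, rfl⟩
    have k4 : xZ.charpoly = xN'.charpoly * (y l).charpoly := by
      refine hex (L l) N Z (U l) (Submodule.inclusion hNZ) ((β l).comp Z.subtype)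
        (Submodule.inclusion_injective hNZ) ?_ ?_ xN' xZ (y l) (fun z => rfl) ?_
      · intro v
        exact ⟨⟨α l v, (hZ _).2 (H.cocycle l v)⟩, H.section_ l v⟩
      · intro z
        constructor
        · intro hz
          exact ⟨⟨z, (hN _).2 ⟨z.2, hz⟩⟩, rfl⟩
        · rintro ⟨w, rfl⟩
          exact ((hN _).1 w.2).2
      · intro z
        exact βx z z.2
    rw [← rev_map, ← hχ, k1, k4, Polynomial.reverse_mul_of_domain, k3, ← k2, hψ, rev_map]
  by_cases hΛ : Nonempty Λ
  · obtain ⟨l₀⟩ := hΛ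
    have hd : ψ.reverse ∣ χ.reverse := by
      rw [← Polynomial.map_dvd_map' (algebraMap ℚ (L l₀)), key l₀]
      exact dvd_mul_right _ _
    obtain ⟨P, hP⟩ := hd
    have hψ0 : ψ.reverse ≠ 0 := by
      intro h0
      rw [Polynomial.reverse_eq_zero] at h0
      have h1 := (T l₀ (x * (a * u))).charpoly_monic.ne_zero
      rw [hψ, h0, Polynomial.map_zero] at h1
      exact h1 rfl
    have hPl : ∀ l, (y l).charpoly.reverse = P.map (algebraMap ℚ (L l)) := by
      intro l
      have h1 := key l
      rw [hP, Polynomial.map_mul] at h1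
      refine (mul_left_cancel₀ ?_ h1).symm
      rwa [Ne, Polynomial.map_eq_zero]
    refine ⟨P, ?_, Or.inl ⟨l₀⟩, hPl⟩
    have h2 : ((y l₀).charpoly.reverse).coeff 0 = 1 := by
      rw [Polynomial.coeff_zero_reverse]
      exact (y l₀).charpoly_monic
    rw [hPl, Polynomial.coeff_map] at h2
    exact (algebraMap ℚ (L l₀)).injective (by rw [h2, map_one])
  · exact ⟨1, by simp, Or.inr rfl, fun l => absurd ⟨l⟩ hΛ⟩

end

end Pool.Agent.Helper51K9.LI
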