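import Pool.Agent.Helper51K9.LI.Lw
import Pool.Agent.Helper60K9.EL.Reg

/-! Leaf RG0 (helper61) -/

set_option autoImplicit false

namespace Pool.Agent.Helper51K9.LI

theorem rg0 : S_RG0 := by
  intro K V _ _ _ _ _ R hc htr hnd D hD
  refine Pool.Agent.Helper60K9.EL.reg K V 1 R (mul_one 1) hc (fun x _ => by rw [one_mul, mul_one])
    (fun x hx => ?_) (fun x hx h => hnd x hx fun y hy => ?_) D hD
  · obtain ⟨c, hc'⟩ := htr x hx
    exact ⟨c, by rw [one_mul]; exact hc'⟩
  · have := h y hy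
    rwa [one_mul] at this

end Pool.Agent.Helper51K9.LI

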