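import Pool.Agent.Helper51K9.LI.Lw

/-!
# [RK]: ranks which do not depend on the prime
-/

set_option autoImplicit false

namespace Pool.Agent.Helper51K9.LI

open Polynomial

namespace RkL

/-- the rank of an idempotent matrix is its trace -/
theorem rank_trace {L : Type} [Field L] {n : ℕ} {A : Matrix (Fin n) (Fin n) L} (hA : A * A = A) :
    A.trace = (A.rank : L) := by
  have h1 : LinearMap.IsProj (LinearMap.range (Matrix.toLin' A)) (Matrix.toLin' A) := by
    refine ⟨fun x => LinearMap.mem_range_self _ x, ?_⟩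
    rintro x ⟨y, rfl⟩
    rw [← LinearMap.comp_apply, ← Matrix.toLin'_mul, hA]
  have h2 := h1.trace
  rw [Matrix.trace_toLin'_eq] at h2
  rw [h2]
  rfl

/-- the rank of an idempotent matrix, from a rational characteristic polynomial -/
theorem rank_char {L : Type} [Field L] [CharZero L] {n : ℕ} {A : Matrix (Fin n) (Fin n) L}
    (hA : A * A = A) {χ : ℚ[X]} (h : A.charpoly = χ.map (algebraMap ℚ L)) :
    (A.rank : ℚ) = if χ.natDegree = 0 then 0 else -χ.coeff (χ.natDegree - 1) := by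
  have hd : χ.natDegree = n := by
    rw [← natDegree_map (algebraMap ℚ L), ← h, Matrix.charpoly_natDegree_eq_dim,
      Fintype.card_fin]
  split_ifs with h0
  · have h1 : A.rank ≤ 0 := by
      have h2 := Matrix.rank_le_width A
      omega
    rw [Nat.le_zero.1 h1, Nat.cast_zero]
  · have : Nonempty (Fin n) := ⟨⟨0, by omega⟩⟩
    have h1 := rank_trace hA
    have h3 : Fintype.card (Fin n) - 1 = χ.natDegree - 1 := by rw [Fintype.card_fin, hd]
    rw [Matrix.trace_eq_neg_charpoly_coeff, h, coeff_map, h3] at h1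
    have h2 : ((A.rank : ℚ) : L) = ((-χ.coeff (χ.natDegree - 1) : ℚ) : L) := by
      push_cast
      rw [← h1]
      simp
    exact_mod_cast h2

/-- regularity of the image -/
theorem reg0 (rg0 : S_RG0) {K : Type} [Field K] [CharZero K] {D : Type} [Ring D] [Algebra ℚ D]
    {n : ℕ} (T : D →+* Matrix (Fin n) (Fin n) K)
    (hT : ∀ x, ∃ χ : ℚ[X], (T x).charpoly = χ.map (algebraMap ℚ K))
    (hnd : ∀ x, (∀ y, (T (x * y)).trace = 0) → T x = 0) (d : D) :
    ∃ u : D, T (d * u * d) = T d := by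
  let e : Matrix (Fin n) (Fin n) K →+* Module.End K (Fin n → K) :=
    ((Matrix.toLinAlgEquiv' : Matrix (Fin n) (Fin n) K ≃ₐ[K] _) :
      Matrix (Fin n) (Fin n) K →+* Module.End K (Fin n → K))
  let φ : D →+* Module.End K (Fin n → K) := e.comp T
  have hφ : ∀ x, φ x = Matrix.toLin' (T x) := fun x => rfl
  have hinj : ∀ x y, φ x = φ y → T x = T y := fun x y h =>
    Matrix.toLin'.injective (by rw [← hφ, ← hφ, h])
  have htr : ∀ x, LinearMap.trace K _ (φ x) = (T x).trace := fun x => by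
    rw [hφ, Matrix.trace_toLin'_eq]
  have hrat : ∀ x, ∃ c : ℚ, (T x).trace = (c : K) := by
    intro x
    obtain ⟨χ, hχ⟩ := hT x
    rcases Nat.eq_zero_or_pos n with h0 | h0
    · subst h0
      exact ⟨0, by simp [Matrix.trace]⟩
    · have : Nonempty (Fin n) := ⟨⟨0, h0⟩⟩
      refine ⟨-χ.coeff (Fintype.card (Fin n) - 1), ?_⟩
      rw [Matrix.trace_eq_neg_charpoly_coeff, hχ, coeff_map]
      simp
  have a1 : ∀ (c : ℚ), ∀ x ∈ φ.range, (c : K) • x ∈ φ.range := by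
    rintro c _ ⟨x, rfl⟩
    refine ⟨c • x, ?_⟩
    rw [map_rat_smul, ← Rat.cast_smul_eq_qsmul K]
  have a2 : ∀ x ∈ φ.range, ∃ c : ℚ, LinearMap.trace K _ x = (c : K) := by
    rintro _ ⟨x, rfl⟩
    obtain ⟨c, hc⟩ := hrat x
    exact ⟨c, by rw [htr, hc]⟩
  have a3 : ∀ x ∈ φ.range, (∀ y ∈ φ.range, LinearMap.trace K _ (y * x) = 0) → x = 0 := by
    rintro _ ⟨x, rfl⟩ h
    have h1 : T x = 0 := hnd x fun y => by
      have h2 := h (φ y) ⟨y, rfl⟩
      rw [← map_mul, htr, map_mul] at h2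
      rw [map_mul, Matrix.trace_mul_comm]
      exact h2
    rw [hφ, h1, map_zero]
  obtain ⟨C, ⟨u, rfl⟩, h⟩ := rg0 K (Fin n → K) φ.range a1 a2 a3 (φ d) ⟨d, rfl⟩
  refine ⟨u, hinj _ _ ?_⟩
  rw [map_mul, map_mul, h]

end RkL

open RkL

theorem rk (rg0 : S_RG0) : S_RK := by
  intro Λ L _ _ D _ _ m T hT l₀ hnd d
  obtain ⟨u₀, hu₀⟩ := reg0 rg0 (T l₀) (fun x => (hT x).imp fun χ h => h l₀) hnd d
  obtain ⟨x, hx⟩ : ∃ x : D, x = d * u₀ := ⟨_, rfl⟩
  have hz0 : T l₀ (x * (1 - x)) = 0 := by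
    have h1 : x * (1 - x) = d * u₀ - d * u₀ * d * u₀ := by
      rw [hx, mul_sub, mul_one, mul_assoc (d * u₀) d u₀]
    rw [h1, map_sub, map_mul (T l₀) (d * u₀ * d) u₀, hu₀, ← map_mul, sub_self]
  obtain ⟨χ, hχ⟩ := hT (x * (1 - x))
  have hχ' : χ = X ^ (m l₀) := by
    have h3 := hχ l₀
    rw [hz0, Matrix.charpoly_zero, Fintype.card_fin] at h3
    apply Polynomial.map_injective (algebraMap ℚ (L l₀)) (algebraMap ℚ (L l₀)).injective
    rw [← h3, Polynomial.map_pow, map_X]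
  obtain ⟨M, hM⟩ : ∃ M : ℕ, M = m l₀ := ⟨_, rfl⟩
  rw [← hM] at hχ'
  have hnil : ∀ l, T l (x * (1 - x)) ^ (M + 1) = 0 := by
    intro l
    have h3 := Matrix.aeval_self_charpoly (T l (x * (1 - x)))
    rw [hχ l, hχ', Polynomial.map_pow, map_X, map_pow, aeval_X] at h3
    rw [pow_succ, h3, zero_mul]
  have hp1 : (X : ℤ[X]) ^ (M + 1) ∣ 1 - (1 - X ^ (M + 1)) ^ (M + 1) := by
    have h1 := sub_dvd_pow_sub_pow (1 : ℤ[X]) (1 - X ^ (M + 1)) (M + 1)
    rwa [sub_sub_cancel, one_pow] at h1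
  have hp2 : (1 - X : ℤ[X]) ^ (M + 1) ∣ (1 - X ^ (M + 1)) ^ (M + 1) := by
    apply pow_dvd_pow_of_dvd
    have h1 := sub_dvd_pow_sub_pow (1 : ℤ[X]) X (M + 1)
    rwa [one_pow] at h1
  obtain ⟨S, hS⟩ := hp1
  obtain ⟨W, hW⟩ := hp2
  obtain ⟨u, hu⟩ : ∃ u : D, u = u₀ * aeval x (X ^ M * S : ℤ[X]) := ⟨_, rfl⟩
  obtain ⟨g, hg⟩ : ∃ g : D, g = aeval x (1 - (1 - X ^ (M + 1)) ^ (M + 1) : ℤ[X]) := ⟨_, rfl⟩
  have hgu : g = d * u := by
    have h1 : (X : ℤ[X]) ^ (M + 1) * S = X * (X ^ M * S) := by ring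
    rw [hg, hS, h1, map_mul, aeval_X, hu, hx, mul_assoc]
  have hgg : g * (1 - g) = (x * (1 - x)) ^ (M + 1) * aeval x (S * W : ℤ[X]) := by
    have h1 : (1 - (1 - X ^ (M + 1)) ^ (M + 1) : ℤ[X]) *
        (1 - (1 - (1 - X ^ (M + 1)) ^ (M + 1))) = (X * (1 - X)) ^ (M + 1) * (S * W) := by
      rw [sub_sub_cancel]
      calc (1 - (1 - X ^ (M + 1)) ^ (M + 1) : ℤ[X]) * (1 - X ^ (M + 1)) ^ (M + 1) =
          X ^ (M + 1) * S * ((1 - X) ^ (M + 1) * W) := by rw [hS, hW]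
        _ = (X * (1 - X)) ^ (M + 1) * (S * W) := by rw [mul_pow]; ring
    have h2 := congrArg (aeval x : ℤ[X] →ₐ[ℤ] D) h1
    have h3 : (aeval x : ℤ[X] →ₐ[ℤ] D) (1 - (1 - (1 - X ^ (M + 1)) ^ (M + 1))) = 1 - g := by
      rw [map_sub, map_one, ← hg]
    have h4 : (aeval x : ℤ[X] →ₐ[ℤ] D) (X * (1 - X)) = x * (1 - x) := by
      rw [map_mul, aeval_X, map_sub, map_one, aeval_X]
    have h5 : (aeval x : ℤ[X] →ₐ[ℤ] D) ((X * (1 - X)) ^ (M + 1) * (S * W)) =
        (x * (1 - x)) ^ (M + 1) * aeval x (S * W) := by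
      rw [map_mul, map_pow, h4]
    rw [map_mul, h3, ← hg, h5] at h2
    exact h2
  have hid : ∀ l, T l g * T l g = T l g := by
    intro l
    have h3 : T l (g * (1 - g)) = 0 := by rw [hgg, map_mul, map_pow, hnil l, zero_mul]
    rw [mul_sub, mul_one, map_sub, map_mul, sub_eq_zero] at h3
    exact h3.symm
  obtain ⟨χg, hχg⟩ := hT g
  have hr : ∀ l, (T l g).rank = (T l₀ g).rank := fun l => by
    exact_mod_cast (rank_char (hid l) (hχg l)).trans (rank_char (hid l₀) (hχg l₀)).symm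
  have hg0 : T l₀ g = T l₀ x := by
    have hA : IsIdempotentElem (T l₀ x) := by
      have h1 := hz0
      rw [mul_sub, mul_one, map_sub, map_mul, sub_eq_zero] at h1
      exact h1.symm
    have h1 : T l₀ g = 1 - (1 - T l₀ x ^ (M + 1)) ^ (M + 1) := by
      rw [hg]
      simp only [map_sub, map_pow, map_one, aeval_X]
    rw [h1, hA.pow_succ_eq, hA.one_sub.pow_succ_eq, sub_sub_cancel]
  have hr0 : (T l₀ g).rank = (T l₀ d).rank := by
    apply le_antisymm
    · rw [hg0, hx, map_mul]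
      exact Matrix.rank_mul_le_left _ _
    · have h1 : T l₀ d = T l₀ x * T l₀ d := by rw [← map_mul, hx, hu₀]
      rw [hg0]
      calc (T l₀ d).rank = (T l₀ x * T l₀ d).rank := by rw [← h1]
        _ ≤ (T l₀ x).rank := Matrix.rank_mul_le_left _ _
  refine ⟨u, fun l => ?_⟩
  have hgd : T l g = T l d * T l u := by rw [hgu, map_mul]
  have hle : (T l₀ d).rank ≤ (T l d).rank := by
    rw [← hr0, ← hr l, hgd]
    exact Matrix.rank_mul_le_left _ _
  refine ⟨hle, fun heq => ?_⟩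
  have hsub : LinearMap.range (T l g).mulVecLin ≤ LinearMap.range (T l d).mulVecLin := by
    rw [hgd, Matrix.mulVecLin_mul]
    exact LinearMap.range_comp_le_range _ _
  have hEq : LinearMap.range (T l g).mulVecLin = LinearMap.range (T l d).mulVecLin := by
    apply Submodule.eq_of_le_of_finrank_eq hsub
    show (T l g).rank = (T l d).rank
    rw [hr l, hr0, heq]
  have hfix : T l g * T l d = T l d := by
    apply Matrix.toLin'.injective
    apply LinearMap.ext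
    intro v
    have hv : (T l d).mulVecLin v ∈ LinearMap.range (T l g).mulVecLin := by
      rw [hEq]
      exact LinearMap.mem_range_self _ v
    obtain ⟨w, hw⟩ := hv
    rw [Matrix.toLin'_apply', Matrix.toLin'_apply', Matrix.mulVecLin_mul, LinearMap.comp_apply,
      ← hw, ← LinearMap.comp_apply, ← Matrix.mulVecLin_mul, hid l]
  rw [← hgu, map_mul, hfix]

end Pool.Agent.Helper51K9.LI
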