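import Pool.Agent.Helper51K9.LI.Lw

/-!
# OnePrimeSuffices: the leaf [RKE]
-/

set_option autoImplicit false

namespace Pool.Agent.Helper51K9.LI

open Polynomial

/-- [RKE] -/
theorem rke : S_RKE := by
  intro Λ L _ _ m A hA hχ
  obtain ⟨χ, hχ⟩ := hχ
  have key : ∀ l, (((A l).rank : ℕ) : ℚ) = -χ.nextCoeff := by
    intro l
    have hid : IsIdempotentElem (Matrix.toLin' (A l)) := by
      show Matrix.toLin' (A l) * Matrix.toLin' (A l) = Matrix.toLin' (A l)
      rw [Module.End.mul_eq_comp, ← Matrix.toLin'_mul, hA l]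
    have h1 : LinearMap.trace (L l) _ (Matrix.toLin' (A l)) = ((A l).rank : L l) := by
      rw [(LinearMap.IsIdempotentElem.isProj_range _ hid).trace]
      rfl
    rw [Matrix.trace_toLin'_eq, Matrix.trace_eq_neg_charpoly_nextCoeff, hχ l,
      Polynomial.nextCoeff_map (algebraMap ℚ (L l)).injective] at h1
    apply (algebraMap ℚ (L l)).injective
    rw [map_natCast, map_neg]
    exact h1.symm
  intro l l'
  have h := (key l).trans (key l').symm
  exact_mod_cast h

end Pool.Agent.Helper51K9.LI
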