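import Mathlib

/-!
# Definitions for `MP_a3c811_ag.LowWeightFactors`
-/

set_option autoImplicit false

namespace Pool.Agent.Helper51K9.LI

open Polynomial

/-- `f` is `det (1 - F T | V ^ I)`: there is a basis `v` of the space of the vectors of `V` which are fixed by all the
elements of `I`, and `f = det (1 - A T)` for the matrix `A` of `F` with respect to `v`. -/
def IsLocalFactor {G L V : Type} [Field L] [AddCommGroup V] [Module L V]
    (ρ : G → Module.End L V) (I : Set G) (F : G) (f : L[X]) : Prop :=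
  ∃ (m : ℕ) (v : Fin m → V) (A : Matrix (Fin m) (Fin m) L), LinearIndependent L v ∧
    (∀ x, x ∈ Submodule.span L (Set.range v) ↔ ∀ g ∈ I, ρ g x = x) ∧
    (∀ k, ρ F (v k) = ∑ i, A i k • v i) ∧ f = (1 - (X : L[X]) • A.map C).det

/-- Every complex root `z` of `Q` has a weight in `W`: `|z| ^ 2 = q ^ w` with `w ∈ W`. -/
def Weights (q : ℕ) (W : Set ℤ) (Q : ℚ[X]) : Prop :=
  ∀ z : ℂ, aeval z Q = 0 → ∃ w ∈ W, ‖z‖ ^ 2 = (q : ℝ) ^ w

/-- The cohomology `U l`, in the middle term, of a complex whose three terms are direct summands of the spaces `E l`,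
on which a semisimple ring of correspondences acts.
Here `e`, `a`, `b` are the projector onto the middle term, the differential which ends in it and the differential which
starts from it; the cocycles are the `x` with `e x = x` and `b x = 0`, the coboundaries are the `a y`; `α l` maps `U l` to
the cocycles and `β l` maps the cocycles to `U l` and is zero on the coboundaries; and for the elements `g` of `S` the
action of `g` on `U l`, composed with the maps `α` and `β`, is induced by a correspondence `c g` which commutes with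
`e`, `a` and `b`. -/
structure IsComplex {G : Type} (S : Set G) {Λ : Type} (L : Λ → Type) [∀ l, Field (L l)]
    [∀ l, CharZero (L l)] (U : Λ → Type) [∀ l, AddCommGroup (U l)] [∀ l, Module (L l) (U l)]
    (act : ∀ l, G → Module.End (L l) (U l)) {D : Type} [Ring D] [Algebra ℚ D]
    (E : Λ → Type) [∀ l, AddCommGroup (E l)] [∀ l, Module (L l) (E l)]
    [∀ l, FiniteDimensional (L l) (E l)]
    (T : ∀ l, D →+* Module.End (L l) (E l)) (e a b : D) (c : G → D)
    (α : ∀ l, U l →ₗ[L l] E l) (β : ∀ l, E l →ₗ[L l] U l) : Prop where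
  semisimple : IsSemisimpleRing D
  charpoly : ∀ x : D, ∃ χ : ℚ[X], ∀ l, (T l x).charpoly = χ.map (algebraMap ℚ (L l))
  terms : e * e = e ∧ e * a = a ∧ b * e = b ∧ b * a = 0
  cocycle : ∀ l u, T l e (α l u) = α l u ∧ T l b (α l u) = 0
  coboundary : ∀ l y, β l (T l a y) = 0
  section_ : ∀ l u, β l (α l u) = u
  commute : ∀ g ∈ S, c g * e = e * c g ∧ c g * a = a * c g ∧ c g * b = b * c g
  induce : ∀ g ∈ S, ∀ l x, T l e x = x → T l b x = 0 →
    ∃ y, T l (c g) x = α l (act l g (β l x)) + T l a y

/-- `W l` is a subspace of `V l`, stable under the elements of `S`, and an extension of `U 1 l` by `U 0 l`. -/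
structure IsFiltered {G : Type} (S : Set G) {Λ : Type} (L : Λ → Type) [∀ l, Field (L l)]
    (V : Λ → Type) [∀ l, AddCommGroup (V l)] [∀ l, Module (L l) (V l)]
    (ρ : ∀ l, G → Module.End (L l) (V l)) (W : ∀ l, Submodule (L l) (V l))
    (U : Fin 2 → Λ → Type) [∀ w l, AddCommGroup (U w l)] [∀ w l, Module (L l) (U w l)]
    (act : ∀ w l, G → Module.End (L l) (U w l))
    (j : ∀ l, U 0 l →ₗ[L l] V l) (p : ∀ l, W l →ₗ[L l] U 1 l) : Prop where
  stable : ∀ l, ∀ g ∈ S, ∀ x ∈ W l, ρ l g x ∈ W l
  injective : ∀ l, Function.Injective (j l)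
  range_le : ∀ l u, j l u ∈ W l
  exact : ∀ l x, p l x = 0 ↔ ∃ u, j l u = x
  surjective : ∀ l, Function.Surjective (p l)
  equivariant_j : ∀ l, ∀ g ∈ S, ∀ u, ρ l g (j l u) = j l (act 0 l g u)
  equivariant_p : ∀ l, ∀ g ∈ S, ∀ x y : W l, (y : V l) = ρ l g x → p l y = act 1 l g (p l x)

end Pool.Agent.Helper51K9.LI
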